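import Mathlib

set_option autoImplicit false

namespace H37Z.Tri

open Finset

/-- the sign of a type -/
def sg : Bool → ℝ
  | true => 1
  | false => -1

lemma sg_sq (b : Bool) : sg b * sg b = 1 := by cases b <;> norm_num [sg]

lemma sg_not (b : Bool) : sg (!b) = - sg b := by cases b <;> norm_num [sg]

lemma sg_beq (a b : Bool) : sg (a == b) = sg a * sg b := by
  cases a <;> cases b <;> norm_num [sg]

lemma sg_cases (b : Bool) : sg b = 1 ∨ sg b = -1 := by cases b <;> norm_num [sg]

variable {V : Type*}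

/-- the product of the signs of the two ends -/
def chi (τ : V → Bool) : Sym2 V → ℝ :=
  Sym2.lift ⟨fun u v => sg (τ u) * sg (τ v), fun _ _ => mul_comm _ _⟩

@[simp] lemma chi_mk (τ : V → Bool) (u v : V) : chi τ s(u, v) = sg (τ u) * sg (τ v) := rfl

lemma chi_cases (τ : V → Bool) (e : Sym2 V) : chi τ e = 1 ∨ chi τ e = -1 := by
  induction e using Sym2.ind with
  | _ u v =>
    rw [chi_mk]
    rcases sg_cases (τ u) with h | h <;> rcases sg_cases (τ v) with h' | h' <;> rw [h, h'] <;>
      norm_num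

lemma abs_chi (τ : V → Bool) (e : Sym2 V) : |chi τ e| = 1 := by
  rcases chi_cases τ e with h | h <;> rw [h] <;> norm_num

lemma chi_beq (τ τ' : V → Bool) (e : Sym2 V) :
    chi (fun v => τ v == τ' v) e = chi τ e * chi τ' e := by
  induction e using Sym2.ind with
  | _ u v =>
    rw [chi_mk, chi_mk, chi_mk, sg_beq, sg_beq]
    ring

/-- product over a set of pairs -/
noncomputable def chiS (S : Finset (Sym2 V)) (τ : V → Bool) : ℝ := ∏ e ∈ S, chi τ e

lemma chiS_cases (S : Finset (Sym2 V)) (τ : V → Bool) : chiS S τ = 1 ∨ chiS S τ = -1 := by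
  classical
  unfold chiS
  induction S using Finset.induction_on with
  | empty => left; simp
  | insert e S he ih =>
    rw [prod_insert he]
    rcases chi_cases τ e with h | h <;> rcases ih with h' | h' <;> rw [h, h'] <;> norm_num

lemma chiS_beq (S : Finset (Sym2 V)) (τ τ' : V → Bool) :
    chiS S (fun v => τ v == τ' v) = chiS S τ * chiS S τ' := by
  unfold chiS
  rw [← prod_mul_distrib]
  exact prod_congr rfl fun e _ => chi_beq τ τ' e

/-- the map `τ ↦ (τ == τ')` -/
def twist (τ' : V → Bool) : (V → Bool) ≃ (V → Bool) where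
  toFun τ := fun v => τ v == τ' v
  invFun τ := fun v => τ v == τ' v
  left_inv τ := by funext v; simp only; cases τ v <;> cases τ' v <;> rfl
  right_inv τ := by funext v; simp only; cases τ v <;> cases τ' v <;> rfl

section
variable [Fintype V] [DecidableEq V]

/-- if some value is `-1`, the sum vanishes -/
lemma sum_eq_zero_of_neg (S : Finset (Sym2 V)) (τ' : V → Bool) (h : chiS S τ' = -1) :
    ∑ τ : V → Bool, chiS S τ = 0 := by
  have h1 : ∑ τ : V → Bool, chiS S τ = ∑ τ : V → Bool, chiS S (twist τ' τ) :=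
    (Equiv.sum_comp (twist τ') (chiS S)).symm
  have h2 : ∀ τ : V → Bool, chiS S (twist τ' τ) = - chiS S τ := by
    intro τ
    have : chiS S (twist τ' τ) = chiS S τ * chiS S τ' := chiS_beq S τ τ'
    rw [this, h]; ring
  simp only [h2, sum_neg_distrib] at h1
  linarith

lemma sum_nonneg' (S : Finset (Sym2 V)) : 0 ≤ ∑ τ : V → Bool, chiS S τ := by
  by_cases h : ∃ τ', chiS S τ' = -1
  · obtain ⟨τ', h⟩ := h
    rw [sum_eq_zero_of_neg S τ' h]
  · push Not at h
    apply sum_nonneg
    intro τ _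
    rcases chiS_cases S τ with h1 | h1
    · rw [h1]; norm_num
    · exact absurd h1 (h τ)

lemma sum_le' (S : Finset (Sym2 V)) : ∑ τ : V → Bool, chiS S τ ≤ 2 ^ Fintype.card V := by
  have : ∑ τ : V → Bool, chiS S τ ≤ ∑ _τ : V → Bool, (1 : ℝ) := by
    apply sum_le_sum
    intro τ _
    rcases chiS_cases S τ with h1 | h1 <;> rw [h1] <;> norm_num
  refine this.trans (le_of_eq ?_)
  rw [sum_const, card_univ, Fintype.card_fun, Fintype.card_bool]
  simp

/-- the types which are `false` exactly at `x` -/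
def spike (x : V) : V → Bool := fun v => !(decide (v = x))

lemma chi_spike (x : V) (e : Sym2 V) (he : ¬ e.IsDiag) :
    chi (spike x) e = if x ∈ e then -1 else 1 := by
  induction e using Sym2.ind with
  | _ u v =>
    rw [chi_mk]
    have huv : u ≠ v := by simpa using he
    by_cases hu : u = x
    · have hv : v ≠ x := fun h => huv (hu.trans h.symm)
      simp [spike, sg, hu, hv]
    · by_cases hv : v = x
      · have : x ∈ s(u, v) := by simp [hv]
        simp [spike, sg, hu, hv]
      · have h1 : ¬ (x = u) := fun h => hu h.symm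
        have h2 : ¬ (x = v) := fun h => hv h.symm
        simp [spike, sg, hu, hv, h1, h2]

lemma sum_eq_zero_of_one (S : Finset (Sym2 V)) (hS : ∀ e ∈ S, ¬ e.IsDiag) (e₀ : Sym2 V)
    (he₀ : e₀ ∈ S) (x : V) (hx : x ∈ e₀) (h : ∀ e ∈ S, e ≠ e₀ → x ∉ e) :
    ∑ τ : V → Bool, chiS S τ = 0 := by
  apply sum_eq_zero_of_neg S (spike x)
  unfold chiS
  rw [← mul_prod_erase S _ he₀, chi_spike x e₀ (hS e₀ he₀), if_pos hx]
  have : ∏ e ∈ S.erase e₀, chi (spike x) e = 1 := by
    apply prod_eq_one
    intro e he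
    rw [mem_erase] at he
    rw [chi_spike x e (hS e he.2), if_neg (h e he.2 he.1)]
  rw [this]; norm_num

lemma exists_mem_not_mem (e f : Sym2 V) (he : ¬ e.IsDiag) (hne : e ≠ f) :
    ∃ x, x ∈ e ∧ x ∉ f := by
  by_contra hcon
  push Not at hcon
  apply hne
  induction e using Sym2.ind with
  | _ u v =>
    have huv : u ≠ v := by simpa using he
    have h1 := hcon u (by simp)
    have h2 := hcon v (by simp)
    exact ((Sym2.mem_and_mem_iff huv).1 ⟨h1, h2⟩).symm

lemma sum_card_one_two (S : Finset (Sym2 V)) (hS : ∀ e ∈ S, ¬ e.IsDiag)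
    (hc : S.card = 1 ∨ S.card = 2) : ∑ τ : V → Bool, chiS S τ = 0 := by
  rcases hc with hc | hc
  · obtain ⟨e, rfl⟩ := card_eq_one.1 hc
    obtain ⟨x, hx⟩ : ∃ x, x ∈ e := by
      induction e using Sym2.ind with
      | _ u v => exact ⟨u, by simp⟩
    refine sum_eq_zero_of_one _ hS e (mem_singleton_self e) x hx ?_
    intro f hf hfe
    exact absurd (mem_singleton.1 hf) hfe
  · obtain ⟨e, f, hef, rfl⟩ := card_eq_two.1 hc
    obtain ⟨x, hx1, hx2⟩ := exists_mem_not_mem e f (hS e (by simp)) hef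
    refine sum_eq_zero_of_one _ hS e (by simp) x hx1 ?_
    intro g hg hge
    rcases mem_insert.1 hg with h | h
    · exact absurd h hge
    · rw [mem_singleton.1 h]; exact hx2

/-- The layer average of a set of pairs. -/
noncomputable def lay (T : Finset (Sym2 V)) (δ : ℝ) : ℝ :=
  (∑ τ : V → Bool, ∏ e ∈ T, (1 - δ * chi τ e)) / 2 ^ Fintype.card V

lemma prod_expand (T : Finset (Sym2 V)) (δ : ℝ) (τ : V → Bool) :
    ∏ e ∈ T, (1 - δ * chi τ e) = ∑ S ∈ T.powerset, (-δ) ^ S.card * chiS S τ := by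
  have : ∀ e ∈ T, (1 - δ * chi τ e) = 1 + (-δ) * chi τ e := fun e _ => by ring
  rw [prod_congr rfl this, prod_one_add]
  apply sum_congr rfl
  intro S _
  rw [prod_mul_distrib, prod_const, chiS]

lemma lay_expand (T : Finset (Sym2 V)) (δ : ℝ) :
    lay T δ = ∑ S ∈ T.powerset, (-δ) ^ S.card * ((∑ τ : V → Bool, chiS S τ) / 2 ^ Fintype.card V) := by
  unfold lay
  have : ∑ τ : V → Bool, ∏ e ∈ T, (1 - δ * chi τ e) =
      ∑ S ∈ T.powerset, (-δ) ^ S.card * ∑ τ : V → Bool, chiS S τ := by
    rw [sum_congr rfl fun τ _ => prod_expand T δ τ, sum_comm]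
    apply sum_congr rfl
    intro S _
    rw [mul_sum]
  rw [this, sum_div]
  apply sum_congr rfl
  intro S _
  rw [mul_div_assoc]

lemma lay_nonneg (T : Finset (Sym2 V)) {δ : ℝ} (h0 : 0 ≤ δ) (h1 : δ ≤ 1) : 0 ≤ lay T δ := by
  unfold lay
  apply div_nonneg _ (by positivity)
  apply sum_nonneg
  intro τ _
  apply prod_nonneg
  intro e _
  rcases chi_cases τ e with h | h <;> rw [h] <;> linarith

lemma lay_le (T : Finset (Sym2 V)) (hT : ∀ e ∈ T, ¬ e.IsDiag) {δ : ℝ} (h0 : 0 ≤ δ)
    (h1 : δ ≤ 1) : lay T δ ≤ 1 + 2 ^ T.card * δ ^ 4 := by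
  rw [lay_expand]
  have hpow : (0 : ℝ) < 2 ^ Fintype.card V := by positivity
  have key : ∀ S ∈ T.powerset, (-δ) ^ S.card * ((∑ τ : V → Bool, chiS S τ) / 2 ^ Fintype.card V) ≤
      (if S = ∅ then 1 else 0) + δ ^ 4 := by
    intro S hS
    have hST := mem_powerset.1 hS
    have hnd : ∀ e ∈ S, ¬ e.IsDiag := fun e he => hT e (hST he)
    have ha0 := sum_nonneg' S
    have ha1 := sum_le' S
    set A := ∑ τ : V → Bool, chiS S τ with hA
    have hq0 : 0 ≤ A / 2 ^ Fintype.card V := div_nonneg ha0 hpow.le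
    have hq1 : A / 2 ^ Fintype.card V ≤ 1 := (div_le_one hpow).2 ha1
    by_cases he : S = ∅
    · rw [if_pos he, he]
      simp only [card_empty, pow_zero, one_mul]
      have : 0 ≤ δ ^ 4 := by positivity
      linarith
    · rw [if_neg he, zero_add]
      have hc : 1 ≤ S.card := card_pos.2 (nonempty_iff_ne_empty.2 he)
      by_cases h2 : S.card ≤ 2
      · have : A = 0 := sum_card_one_two S hnd (by omega)
        rw [this]; simp only [zero_div, mul_zero]; positivity
      · by_cases h3 : S.card = 3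
        · rw [h3]
          have : (-δ) ^ 3 = - δ ^ 3 := by ring
          rw [this]
          have h5 : 0 ≤ δ ^ 3 * (A / 2 ^ Fintype.card V) := by positivity
          have h6 : 0 ≤ δ ^ 4 := by positivity
          linarith
        · have h4 : 4 ≤ S.card := by omega
          have h5 : (-δ) ^ S.card ≤ δ ^ 4 := by
            calc (-δ) ^ S.card ≤ |(-δ) ^ S.card| := le_abs_self _
              _ = δ ^ S.card := by rw [abs_pow, abs_neg, abs_of_nonneg h0]
              _ ≤ δ ^ 4 := pow_le_pow_of_le_one h0 h1 h4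
          calc (-δ) ^ S.card * (A / 2 ^ Fintype.card V) ≤ δ ^ 4 * (A / 2 ^ Fintype.card V) :=
                mul_le_mul_of_nonneg_right h5 hq0
            _ ≤ δ ^ 4 * 1 := mul_le_mul_of_nonneg_left hq1 (by positivity)
            _ = δ ^ 4 := mul_one _
  refine (sum_le_sum key).trans ?_
  rw [sum_add_distrib, sum_ite_eq' T.powerset ∅ (fun _ => (1 : ℝ)), if_pos (empty_mem_powerset T),
    sum_const, card_powerset, nsmul_eq_mul]
  push_cast
  exact le_refl _

lemma lay_singleton (e : Sym2 V) (he : ¬ e.IsDiag) (δ : ℝ) : lay {e} δ = 1 := by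
  have h0 : ∑ τ : V → Bool, chiS {e} τ = 0 :=
    sum_card_one_two {e} (by simpa using he) (Or.inl (card_singleton e))
  have h1 : ∀ τ : V → Bool, chiS {e} τ = chi τ e := fun τ => by simp [chiS]
  unfold lay
  simp only [prod_singleton]
  rw [sum_sub_distrib, ← mul_sum, ← sum_congr rfl fun τ _ => h1 τ, h0, mul_zero, sub_zero, sum_const,
    card_univ, Fintype.card_fun, Fintype.card_bool]
  simp

/-- three pairs of a triangle -/
lemma lay_triangle (u v w : V) (huv : u ≠ v) (huw : u ≠ w) (hvw : v ≠ w) (δ : ℝ) :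
    lay {s(u, v), s(u, w), s(v, w)} δ = 1 - δ ^ 3 := by
  have n1 : s(u, v) ≠ s(u, w) := by
    intro h; rw [Sym2.eq_iff] at h; tauto
  have n2 : s(u, v) ≠ s(v, w) := by
    intro h; rw [Sym2.eq_iff] at h; tauto
  have n3 : s(u, w) ≠ s(v, w) := by
    intro h; rw [Sym2.eq_iff] at h; tauto
  have hprod : ∀ τ : V → Bool, ∏ e ∈ ({s(u, v), s(u, w), s(v, w)} : Finset (Sym2 V)),
      (1 - δ * chi τ e) = (1 - δ ^ 3) - (δ * (1 - δ)) * (chiS {s(u, v)} τ + chiS {s(u, w)} τ +
        chiS {s(v, w)} τ) := by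
    intro τ
    rw [prod_insert (by simp [n1, n2]), prod_insert (by simp [n3]), prod_singleton]
    simp only [chiS, prod_singleton, chi_mk]
    have a := sg_sq (τ u)
    have b := sg_sq (τ v)
    have c := sg_sq (τ w)
    generalize sg (τ u) = x at *
    generalize sg (τ v) = y at *
    generalize sg (τ w) = z at *
    have h1 : (x * y) * (x * z) = y * z := by linear_combination (y * z) * a
    have h2 : (x * y) * (y * z) = x * z := by linear_combination (x * z) * b
    have h3 : (x * z) * (y * z) = x * y := by linear_combination (x * y) * c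
    have h4 : (x * y) * (x * z) * (y * z) = 1 := by
      rw [h1]; linear_combination (z * z) * b + c
    linear_combination δ ^ 2 * (h1 + h2 + h3) - δ ^ 3 * h4
  have z1 := sum_card_one_two ({s(u, v)} : Finset (Sym2 V)) (by simpa using huv) (Or.inl (card_singleton _))
  have z2 := sum_card_one_two ({s(u, w)} : Finset (Sym2 V)) (by simpa using huw) (Or.inl (card_singleton _))
  have z3 := sum_card_one_two ({s(v, w)} : Finset (Sym2 V)) (by simpa using hvw) (Or.inl (card_singleton _))
  unfold lay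
  rw [sum_congr rfl fun τ _ => hprod τ, sum_sub_distrib, ← mul_sum, sum_add_distrib,
    sum_add_distrib, z1, z2, z3, sum_const, card_univ, Fintype.card_fun, Fintype.card_bool]
  simp

end

end H37Z.Tri
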