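import Pool.Agent.H37Z.Tri.FourCycle

set_option autoImplicit false

namespace H37Z.Tri

open Finset

/-- normalised number of labelled copies -/
noncomputable def cnt {k n : ℕ} (p : ℝ) (F : SimpleGraph (Fin k)) (G : SimpleGraph (Fin n)) : ℝ :=
  (G.labelledCopyCount F : ℝ) / ((n.descFactorial k : ℝ) * p ^ F.edgeSet.ncard)

/-- normalised number of edges -/
noncomputable def edg {n : ℕ} (p : ℝ) (G : SimpleGraph (Fin n)) : ℝ :=
  (G.edgeSet.ncard : ℝ) / ((n.choose 2 : ℝ) * p)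

lemma cnt_nonneg {k n : ℕ} {p : ℝ} (hp : 0 ≤ p) (F : SimpleGraph (Fin k))
    (G : SimpleGraph (Fin n)) : 0 ≤ cnt p F G := by
  unfold cnt; positivity

open Classical in
lemma sum_edges {n m K M a : ℕ} (hK : 1 ≤ K) (haM : a ≤ M) (hM : 0 < M) :
    (∑ ω : Om n m K M, ((gr a ω).edgeSet.ncard : ℝ)) =
      (n.choose 2 : ℝ) * ((a : ℝ) / M / 2 ^ m) * (Fintype.card (Om n m K M) : ℝ) := by
  have h1 : ∀ ω : Om n m K M, ((gr a ω).edgeSet.ncard : ℝ) =
      ∑ e ∈ (univ.filter fun e : Sym2 (Fin n) => ¬ e.IsDiag),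
        if ∀ e' ∈ ({e} : Finset (Sym2 (Fin n))), good a ω e' then (1 : ℝ) else 0 := by
    intro ω
    have e1 : (gr a ω).edgeSet = ((univ.filter fun e : Sym2 (Fin n) => ¬ e.IsDiag).filter
        fun e => good a ω e : Finset (Sym2 (Fin n))) := by
      ext e
      induction e using Sym2.ind with
      | _ u v =>
        rw [SimpleGraph.mem_edgeSet, gr_adj]
        simp [and_comm]
    rw [e1, Set.ncard_coe_finset, card_filter]
    push_cast
    apply sum_congr rfl
    intro e _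
    simp
  rw [sum_congr rfl fun ω _ => h1 ω, sum_comm]
  have h2 : ∀ e ∈ (univ.filter fun e : Sym2 (Fin n) => ¬ e.IsDiag),
      (∑ ω : Om n m K M, if ∀ e' ∈ ({e} : Finset (Sym2 (Fin n))), good a ω e' then (1 : ℝ) else 0) =
      ((a : ℝ) / M / 2 ^ m) * (Fintype.card (Om n m K M) : ℝ) := by
    intro e he
    rw [mem_filter] at he
    rw [sum_good hK haM hM, lay_singleton e he.2, card_singleton]
    simp only [pow_one, one_div, inv_pow]
    ring
  rw [sum_congr rfl h2, sum_const, nsmul_eq_mul]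
  have h3 : (univ.filter fun e : Sym2 (Fin n) => ¬ e.IsDiag).card = n.choose 2 := by
    have := Sym2.card_subtype_not_diag (α := Fin n)
    rw [Fintype.card_fin] at this
    rw [← this, Fintype.card_subtype]
  rw [h3]
  ring

lemma avg_cnt_le {k n m K M a : ℕ} (hK : 1 ≤ K) (ha : 0 < a) (haM : a ≤ M) (hM : 0 < M)
    (hk : k ≤ n) (F : SimpleGraph (Fin k)) (B : ℝ)
    (hB : ∀ f : Fin k ↪ Fin n, open Classical in lay (img F f) (1 / (K : ℝ)) ≤ B) :
    (∑ ω : Om n m K M, cnt ((a : ℝ) / M / 2 ^ m) F (gr a ω)) ≤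
      B ^ m * (Fintype.card (Om n m K M) : ℝ) := by
  classical
  have hK1 : (1 : ℝ) / K ≤ 1 := by
    rw [div_le_one (by exact_mod_cast hK)]
    exact_mod_cast hK
  have hK0 : (0 : ℝ) ≤ 1 / K := by positivity
  have ha' : (0 : ℝ) < a := by exact_mod_cast ha
  have hM' : (0 : ℝ) < M := by exact_mod_cast hM
  have hfac : (0 : ℝ) < (n.descFactorial k : ℝ) := by
    exact_mod_cast Nat.descFactorial_pos.2 hk
  unfold cnt
  rw [← sum_div, sum_labelled hK haM hM F, div_le_iff₀ (by positivity)]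
  have h1 : ∀ f ∈ (univ : Finset (Fin k ↪ Fin n)), ((a : ℝ) / M) ^ F.edgeSet.ncard *
      (lay (img F f) (1 / (K : ℝ)) / 2 ^ F.edgeSet.ncard) ^ m *
        (Fintype.card (Om n m K M) : ℝ) ≤ ((a : ℝ) / M) ^ F.edgeSet.ncard *
      (B / 2 ^ F.edgeSet.ncard) ^ m * (Fintype.card (Om n m K M) : ℝ) := by
    intro f _
    apply mul_le_mul_of_nonneg_right _ (Nat.cast_nonneg _)
    apply mul_le_mul_of_nonneg_left _ (by positivity)
    apply pow_le_pow_left₀
    · exact div_nonneg (lay_nonneg _ hK0 hK1) (by positivity)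
    · apply div_le_div_of_nonneg_right _ (by positivity)
      convert hB f
  refine (sum_le_sum h1).trans (le_of_eq ?_)
  rw [sum_const, card_univ, Fintype.card_embedding_eq, Fintype.card_fin, Fintype.card_fin,
    nsmul_eq_mul, div_pow, div_pow, div_pow, ← pow_mul, ← pow_mul, mul_comm m]
  ring

lemma avg_cnt_general {k n m K M a : ℕ} (hK : 1 ≤ K) (ha : 0 < a) (haM : a ≤ M) (hM : 0 < M)
    (hk : k ≤ n) (F : SimpleGraph (Fin k)) :
    (∑ ω : Om n m K M, cnt ((a : ℝ) / M / 2 ^ m) F (gr a ω)) ≤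
      Real.exp (2 ^ F.edgeSet.ncard * (m / (K : ℝ) ^ 4)) * (Fintype.card (Om n m K M) : ℝ) := by
  classical
  have hK1 : (1 : ℝ) / K ≤ 1 := by
    rw [div_le_one (by exact_mod_cast hK)]
    exact_mod_cast hK
  have hK0 : (0 : ℝ) ≤ 1 / K := by positivity
  have hcard : F.edgeSet.ncard = F.edgeFinset.card := by
    rw [← SimpleGraph.coe_edgeFinset, Set.ncard_coe_finset]
  have h := avg_cnt_le (m := m) hK ha haM hM hk F (1 + 2 ^ F.edgeSet.ncard * (1 / (K : ℝ)) ^ 4) (by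
    intro f
    have := lay_le (img F f) (img_nondiag F f) hK0 hK1
    rw [card_img, ← hcard] at this
    convert this)
  refine h.trans (mul_le_mul_of_nonneg_right ?_ (Nat.cast_nonneg _))
  have h1 : 1 + 2 ^ F.edgeSet.ncard * (1 / (K : ℝ)) ^ 4 ≤
      Real.exp (2 ^ F.edgeSet.ncard * (1 / (K : ℝ)) ^ 4) := by
    have := Real.add_one_le_exp (2 ^ F.edgeSet.ncard * (1 / (K : ℝ)) ^ 4)
    linarith
  calc (1 + 2 ^ F.edgeSet.ncard * (1 / (K : ℝ)) ^ 4) ^ m
      ≤ Real.exp (2 ^ F.edgeSet.ncard * (1 / (K : ℝ)) ^ 4) ^ m :=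
        pow_le_pow_left₀ (by positivity) h1 m
    _ = Real.exp (2 ^ F.edgeSet.ncard * (m / (K : ℝ) ^ 4)) := by
        rw [← Real.exp_nat_mul]
        congr 1
        rw [one_div, inv_pow]
        ring

lemma fin3_pairs : ∀ x y : Fin 3, x ≠ y →
    s(x, y) = s(0, 1) ∨ s(x, y) = s(0, 2) ∨ s(x, y) = s(1, 2) := by decide

lemma img_top_three {n : ℕ} (f : Fin 3 ↪ Fin n) [DecidableRel (⊤ : SimpleGraph (Fin 3)).Adj] :
    img (⊤ : SimpleGraph (Fin 3)) f = {s(f 0, f 1), s(f 0, f 2), s(f 1, f 2)} := by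
  ext e
  simp only [img, mem_image, SimpleGraph.mem_edgeFinset, mem_insert, mem_singleton]
  constructor
  · rintro ⟨e', he', rfl⟩
    induction e' using Sym2.ind with
    | _ x y =>
      have hxy : x ≠ y := he'
      rcases fin3_pairs x y hxy with h | h | h
      · left; rw [h]; rfl
      · right; left; rw [h]; rfl
      · right; right; rw [h]; rfl
  · rintro (rfl | rfl | rfl)
    · exact ⟨s(0, 1), by simp, rfl⟩
    · exact ⟨s(0, 2), by simp, rfl⟩
    · exact ⟨s(1, 2), by simp, rfl⟩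

lemma avg_cnt_three {n m K M a : ℕ} (hK : 1 ≤ K) (ha : 0 < a) (haM : a ≤ M) (hM : 0 < M)
    (hk : 3 ≤ n) :
    (∑ ω : Om n m K M, cnt ((a : ℝ) / M / 2 ^ m) (⊤ : SimpleGraph (Fin 3)) (gr a ω)) ≤
      Real.exp (- (m / (K : ℝ) ^ 3)) * (Fintype.card (Om n m K M) : ℝ) := by
  classical
  have hK1 : (1 : ℝ) / K ≤ 1 := by
    rw [div_le_one (by exact_mod_cast hK)]
    exact_mod_cast hK
  have hK0 : (0 : ℝ) ≤ 1 / K := by positivity
  have h := avg_cnt_le (m := m) hK ha haM hM hk (⊤ : SimpleGraph (Fin 3)) (1 - (1 / (K : ℝ)) ^ 3) (by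
    intro f
    rw [@img_top_three n f (fun a b => Classical.propDecidable _), lay_triangle]
    · exact fun h => absurd (f.injective h) (by decide)
    · exact fun h => absurd (f.injective h) (by decide)
    · exact fun h => absurd (f.injective h) (by decide))
  refine h.trans (mul_le_mul_of_nonneg_right ?_ (Nat.cast_nonneg _))
  have h0 : 0 ≤ 1 - (1 / (K : ℝ)) ^ 3 := by
    have := pow_le_one₀ (n := 3) hK0 hK1
    linarith
  have h1 : 1 - (1 / (K : ℝ)) ^ 3 ≤ Real.exp (- (1 / (K : ℝ)) ^ 3) := by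
    have := Real.add_one_le_exp (- (1 / (K : ℝ)) ^ 3)
    linarith
  calc (1 - (1 / (K : ℝ)) ^ 3) ^ m
      ≤ Real.exp (- (1 / (K : ℝ)) ^ 3) ^ m :=
        pow_le_pow_left₀ h0 h1 m
    _ = Real.exp (- (m / (K : ℝ) ^ 3)) := by
        rw [← Real.exp_nat_mul]
        congr 1
        rw [one_div, inv_pow]
        ring

lemma four_edges : (SimpleGraph.cycleGraph 4).edgeSet.ncard = 4 := by
  classical
  have h : (SimpleGraph.cycleGraph 4).edgeSet.ncard = (SimpleGraph.cycleGraph 4).edgeFinset.card := by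
    rw [← SimpleGraph.coe_edgeFinset, Set.ncard_coe_finset]
  rw [h]
  decide

lemma three_edges : (⊤ : SimpleGraph (Fin 3)).edgeSet.ncard = 3 := by
  classical
  have h : (⊤ : SimpleGraph (Fin 3)).edgeSet.ncard = (⊤ : SimpleGraph (Fin 3)).edgeFinset.card := by
    rw [← SimpleGraph.coe_edgeFinset, Set.ncard_coe_finset]
  rw [h]
  decide

/-- deterministic lower bound for the four-cycle count in terms of the edge count -/
lemma det_lower {n : ℕ} (hn : 4 ≤ n) {p : ℝ} (hp : 0 < p) (G : SimpleGraph (Fin n)) :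
    (1 - 4 / (n : ℝ)) * edg p G ^ 4 - 2 / (n * p ^ 4) ≤ cnt p (SimpleGraph.cycleGraph 4) G := by
  have hn' : (0 : ℝ) < n := by exact_mod_cast (by omega : 0 < n)
  have hn4 : (4 : ℝ) ≤ n := by exact_mod_cast hn
  have h1 := four_lower (by omega : 0 < n) G
  set e := (G.edgeSet.ncard : ℝ) with he
  set E := (G.labelledCopyCount (SimpleGraph.cycleGraph 4) : ℝ) with hE
  have hE0 : 0 ≤ E := Nat.cast_nonneg _
  have hch : (n.choose 2 : ℝ) = n * (n - 1) / 2 := by
    rw [Nat.cast_choose_two]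
  have hedge : 2 * e = edg p G * (n * (n - 1) * p) := by
    unfold edg
    rw [hch, ← he]
    have : (n : ℝ) - 1 ≠ 0 := by linarith
    field_simp
  have hdf : (n.descFactorial 4 : ℝ) ≤ (n : ℝ) ^ 4 := by
    exact_mod_cast Nat.descFactorial_le_pow n 4
  have hdf0 : (0 : ℝ) < (n.descFactorial 4 : ℝ) := by
    exact_mod_cast Nat.descFactorial_pos.2 hn
  have h2 : E / ((n : ℝ) ^ 4 * p ^ 4) ≤ cnt p (SimpleGraph.cycleGraph 4) G := by
    unfold cnt
    rw [four_edges, ← hE]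
    apply div_le_div_of_nonneg_left hE0 (by positivity)
    exact mul_le_mul_of_nonneg_right hdf (by positivity)
  refine le_trans ?_ h2
  rw [le_div_iff₀ (by positivity)]
  refine le_trans ?_ h1
  rw [hedge]
  have hx : 0 ≤ edg p G := by unfold edg; positivity
  set x := edg p G with hxd
  have e1 : (x * (n * (n - 1) * p)) ^ 4 / (n : ℝ) ^ 4 = x ^ 4 * p ^ 4 * (n - 1) ^ 4 := by
    field_simp
  rw [e1]
  have e2 : ((1 - 4 / (n : ℝ)) * x ^ 4 - 2 / (n * p ^ 4)) * ((n : ℝ) ^ 4 * p ^ 4) =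
      x ^ 4 * p ^ 4 * (n ^ 4 - 4 * n ^ 3) - 2 * n ^ 3 := by
    field_simp
  rw [e2]
  have e3 : (n : ℝ) ^ 4 - 4 * n ^ 3 ≤ (n - 1) ^ 4 := by nlinarith
  have e4 : x ^ 4 * p ^ 4 * ((n : ℝ) ^ 4 - 4 * n ^ 3) ≤ x ^ 4 * p ^ 4 * (n - 1) ^ 4 :=
    mul_le_mul_of_nonneg_left e3 (by positivity)
  linarith

/-- the selection -/
theorem core {n m K M a : ℕ} (hn : 4 ≤ n) (hK : 1 ≤ K) (ha : 0 < a) (haM : a ≤ M)
    (p₁ η : ℝ) (hp₁ : p₁ = (a : ℝ) / M / 2 ^ m) (hmK : (m : ℝ) / (K : ℝ) ^ 4 ≤ 1)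
    (hη : η = Real.exp (16 * (m / (K : ℝ) ^ 4)) - 1 + 2 / (n * p₁ ^ 4) + 4 / n) :
    ∃ G : SimpleGraph (Fin n),
      cnt p₁ (SimpleGraph.cycleGraph 4) G + 2 / (n * p₁ ^ 4) -
        (1 - 4 / (n : ℝ)) * (4 * edg p₁ G - 3) ≤ 3 * η ∧
      cnt p₁ (⊤ : SimpleGraph (Fin 3)) G ≤ 3 * Real.exp (- (m / (K : ℝ) ^ 3)) ∧
      ∀ k ≤ n, ∀ F : SimpleGraph (Fin k), cnt p₁ F G ≤
        3 * (2 ^ (k + 1) * Fintype.card (SimpleGraph (Fin k))) *
          Real.exp (2 ^ F.edgeSet.ncard) := by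
  classical
  have hM : 0 < M := lt_of_lt_of_le ha haM
  have hn' : (0 : ℝ) < n := by exact_mod_cast (by omega : 0 < n)
  have hn4 : (4 : ℝ) ≤ n := by exact_mod_cast hn
  have ha' : (0 : ℝ) < a := by exact_mod_cast ha
  have hM' : (0 : ℝ) < M := by exact_mod_cast hM
  have hp : 0 < p₁ := by rw [hp₁]; positivity
  have hch0 : (0 : ℝ) < (n.choose 2 : ℝ) := by
    exact_mod_cast Nat.choose_pos (by omega : 2 ≤ n)
  -- the number of samples
  have : Nonempty (Om n m K M) := by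
    have : NeZero M := ⟨hM.ne'⟩
    have : NeZero (2 * K) := ⟨by omega⟩
    infer_instance
  have hOm : (0 : ℝ) < (Fintype.card (Om n m K M) : ℝ) := by exact_mod_cast Fintype.card_pos
  -- the three parts
  let U : Om n m K M → ℝ := fun ω => cnt p₁ (SimpleGraph.cycleGraph 4) (gr a ω) + 2 / (n * p₁ ^ 4) -
        (1 - 4 / (n : ℝ)) * (4 * edg p₁ (gr a ω) - 3)
  let Z : Om n m K M → ℝ := fun ω => cnt p₁ (⊤ : SimpleGraph (Fin 3)) (gr a ω)
  let S : Om n m K M → ℝ := fun ω => ∑ k ∈ range (n + 1), ∑ F : SimpleGraph (Fin k),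
    cnt p₁ F (gr a ω) / ((2 ^ (k + 1) * Fintype.card (SimpleGraph (Fin k))) *
          Real.exp (2 ^ F.edgeSet.ncard))
  have hU0 : ∀ ω, 0 ≤ U ω := by
    intro ω
    have h1 := det_lower hn hp (gr a ω)
    have hx : 0 ≤ edg p₁ (gr a ω) := by unfold edg; positivity
    show 0 ≤ cnt p₁ (SimpleGraph.cycleGraph 4) (gr a ω) + 2 / (n * p₁ ^ 4) -
        (1 - 4 / (n : ℝ)) * (4 * edg p₁ (gr a ω) - 3)
    have h2 : 0 ≤ 1 - 4 / (n : ℝ) := by
      rw [sub_nonneg, div_le_one hn']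
      exact hn4
    set x := edg p₁ (gr a ω)
    have h3 : 4 * x - 3 ≤ x ^ 4 := by nlinarith [sq_nonneg (x - 1), sq_nonneg (x ^ 2 - 1), sq_nonneg (x + 1)]
    have h4 := mul_le_mul_of_nonneg_left h3 h2
    linarith
  have hη0 : 0 < η := by
    rw [hη]
    have h1 : 1 ≤ Real.exp (16 * (m / (K : ℝ) ^ 4)) := Real.one_le_exp (by positivity)
    have h2 : 0 < 2 / ((n : ℝ) * p₁ ^ 4) := by positivity
    have h3 : 0 < 4 / (n : ℝ) := by positivity
    linarith
  have hZ0 : ∀ ω, 0 ≤ Z ω := fun ω => cnt_nonneg hp.le _ _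
  have hterm0 : ∀ (ω : Om n m K M) (k : ℕ) (F : SimpleGraph (Fin k)),
      0 ≤ cnt p₁ F (gr a ω) / ((2 ^ (k + 1) * Fintype.card (SimpleGraph (Fin k))) *
          Real.exp (2 ^ F.edgeSet.ncard)) := by
    intro ω k F
    apply div_nonneg (cnt_nonneg hp.le _ _)
    positivity
  have hS0 : ∀ ω, 0 ≤ S ω := fun ω =>
    sum_nonneg fun k _ => sum_nonneg fun F _ => hterm0 ω k F
  -- averages
  have hUavg : ∑ ω, U ω ≤ η * (Fintype.card (Om n m K M) : ℝ) := by
    have h1 := avg_cnt_general (m := m) hK ha haM hM hn (SimpleGraph.cycleGraph 4)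
    rw [four_edges, ← hp₁] at h1
    have h2 : ∑ ω : Om n m K M, edg p₁ (gr a ω) = (Fintype.card (Om n m K M) : ℝ) := by
      unfold edg
      rw [← sum_div, sum_edges hK haM hM, ← hp₁]
      field_simp
    have h3 : ∑ ω, U ω = (∑ ω : Om n m K M, cnt p₁ (SimpleGraph.cycleGraph 4) (gr a ω)) +
        (Fintype.card (Om n m K M) : ℝ) * (2 / (n * p₁ ^ 4)) -
        (1 - 4 / (n : ℝ)) * (4 * (∑ ω : Om n m K M, edg p₁ (gr a ω)) -
          3 * (Fintype.card (Om n m K M) : ℝ)) := by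
      simp only [U]
      rw [sum_sub_distrib, sum_add_distrib, ← mul_sum, sum_sub_distrib, ← mul_sum, sum_const,
        sum_const, card_univ, nsmul_eq_mul, nsmul_eq_mul]
      ring
    rw [h3, h2, hη]
    have h4 : (2 : ℝ) ^ 4 = 16 := by norm_num
    rw [h4] at h1
    nlinarith
  have hZavg : ∑ ω, Z ω ≤ Real.exp (- (m / (K : ℝ) ^ 3)) * (Fintype.card (Om n m K M) : ℝ) := by
    have h1 := avg_cnt_three (m := m) (n := n) hK ha haM hM (by omega)
    rw [← hp₁] at h1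
    exact h1
  have hSavg : ∑ ω, S ω ≤ (Fintype.card (Om n m K M) : ℝ) := by
    have h1 : ∑ ω, S ω = ∑ k ∈ range (n + 1), ∑ F : SimpleGraph (Fin k),
        (∑ ω : Om n m K M, cnt p₁ F (gr a ω)) /
          ((2 ^ (k + 1) * Fintype.card (SimpleGraph (Fin k))) *
          Real.exp (2 ^ F.edgeSet.ncard)) := by
      simp only [S]
      rw [sum_comm]
      apply sum_congr rfl
      intro k _
      rw [sum_comm]
      apply sum_congr rfl
      intro F _
      rw [sum_div]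
    rw [h1]
    have h2 : ∀ k ∈ range (n + 1), ∑ F : SimpleGraph (Fin k),
        (∑ ω : Om n m K M, cnt p₁ F (gr a ω)) /
          ((2 ^ (k + 1) * Fintype.card (SimpleGraph (Fin k))) *
          Real.exp (2 ^ F.edgeSet.ncard)) ≤ (1 / 2) ^ (k + 1) *
            (Fintype.card (Om n m K M) : ℝ) := by
      intro k hk
      rw [mem_range] at hk
      have hN : (0 : ℝ) < (Fintype.card (SimpleGraph (Fin k)) : ℝ) := by
        exact_mod_cast Fintype.card_pos
      have h3 : ∀ F ∈ (univ : Finset (SimpleGraph (Fin k))),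
          (∑ ω : Om n m K M, cnt p₁ F (gr a ω)) /
          ((2 ^ (k + 1) * Fintype.card (SimpleGraph (Fin k))) *
          Real.exp (2 ^ F.edgeSet.ncard)) ≤
          (Fintype.card (Om n m K M) : ℝ) / (2 ^ (k + 1) * Fintype.card (SimpleGraph (Fin k))) := by
        intro F _
        have h4 := avg_cnt_general (m := m) hK ha haM hM (by omega : k ≤ n) F
        rw [← hp₁] at h4
        have h5 : Real.exp (2 ^ F.edgeSet.ncard * (m / (K : ℝ) ^ 4)) ≤
            Real.exp (2 ^ F.edgeSet.ncard) := by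
          apply Real.exp_le_exp.2
          calc (2 : ℝ) ^ F.edgeSet.ncard * (m / (K : ℝ) ^ 4) ≤ 2 ^ F.edgeSet.ncard * 1 :=
                mul_le_mul_of_nonneg_left hmK (by positivity)
            _ = _ := mul_one _
        have h6 := h4.trans (mul_le_mul_of_nonneg_right h5 hOm.le)
        rw [div_le_div_iff₀ (by positivity) (by positivity)]
        have h7 := mul_le_mul_of_nonneg_right h6
          (by positivity : (0 : ℝ) ≤ 2 ^ (k + 1) * (Fintype.card (SimpleGraph (Fin k)) : ℝ))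
        linarith
      refine (sum_le_sum h3).trans (le_of_eq ?_)
      rw [sum_const, card_univ, nsmul_eq_mul, one_div, inv_pow]
      have h2 : (2 : ℝ) ^ (k + 1) ≠ 0 := by positivity
      generalize (Fintype.card (Om n m K M) : ℝ) = w
      generalize (Fintype.card (SimpleGraph (Fin k)) : ℝ) = N at hN
      have hN0 : N ≠ 0 := hN.ne'
      have e5 : N * (w / (2 ^ (k + 1) * N)) = w / 2 ^ (k + 1) := by
        rw [mul_comm ((2 : ℝ) ^ (k + 1)) N, ← mul_div_assoc, mul_div_mul_left _ _ hN0]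
      rw [e5, div_eq_mul_inv, mul_comm]
    refine (sum_le_sum h2).trans ?_
    rw [← sum_mul]
    have h4 : ∑ k ∈ range (n + 1), ((1 : ℝ) / 2) ^ (k + 1) ≤ 1 := by
      have h5 : ∀ N : ℕ, ∑ k ∈ range N, ((1 : ℝ) / 2) ^ (k + 1) = 1 - (1 / 2) ^ N := by
        intro N
        induction N with
        | zero => simp
        | succ N ih => rw [sum_range_succ, ih]; ring
      rw [h5]
      have : (0 : ℝ) ≤ (1 / 2) ^ (n + 1) := by positivity
      linarith
    calc _ ≤ 1 * (Fintype.card (Om n m K M) : ℝ) := mul_le_mul_of_nonneg_right h4 hOm.le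
      _ = _ := one_mul _
  have hZe : 0 < Real.exp (- (m / (K : ℝ) ^ 3)) := Real.exp_pos _
  -- choose a sample
  obtain ⟨ω, -, hω⟩ : ∃ ω ∈ (univ : Finset (Om n m K M)),
      U ω / η + Z ω / Real.exp (- (m / (K : ℝ) ^ 3)) + S ω ≤ 3 := by
    apply exists_le_of_sum_le univ_nonempty
    rw [sum_add_distrib, sum_add_distrib, ← sum_div, ← sum_div, sum_const, card_univ,
      nsmul_eq_mul]
    have h1 : (∑ ω, U ω) / η ≤ (Fintype.card (Om n m K M) : ℝ) := by
      rw [div_le_iff₀ hη0]; linarith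
    have h2 : (∑ ω, Z ω) / Real.exp (- (m / (K : ℝ) ^ 3)) ≤ (Fintype.card (Om n m K M) : ℝ) := by
      rw [div_le_iff₀ hZe]; linarith
    linarith
  have a1 : 0 ≤ U ω / η := div_nonneg (hU0 ω) hη0.le
  have a2 : 0 ≤ Z ω / Real.exp (- (m / (K : ℝ) ^ 3)) := div_nonneg (hZ0 ω) hZe.le
  have a3 := hS0 ω
  refine ⟨gr a ω, ?_, ?_, ?_⟩
  · have h1 : U ω / η ≤ 3 := by linarith
    rw [div_le_iff₀ hη0] at h1
    exact h1
  · have h1 : Z ω / Real.exp (- (m / (K : ℝ) ^ 3)) ≤ 3 := by linarith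
    rw [div_le_iff₀ hZe] at h1
    exact h1
  · intro k hk F
    have h1 : S ω ≤ 3 := by linarith
    have h2 : cnt p₁ F (gr a ω) / ((2 ^ (k + 1) * Fintype.card (SimpleGraph (Fin k))) *
          Real.exp (2 ^ F.edgeSet.ncard)) ≤ S ω := by
      refine le_trans ?_ (single_le_sum (f := fun k => ∑ F : SimpleGraph (Fin k),
        cnt p₁ F (gr a ω) / ((2 ^ (k + 1) * Fintype.card (SimpleGraph (Fin k))) *
          Real.exp (2 ^ F.edgeSet.ncard))) (fun k _ => sum_nonneg fun F _ => hterm0 ω k F)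
        (mem_range.2 (by omega : k < n + 1)))
      exact single_le_sum (f := fun F : SimpleGraph (Fin k) =>
        cnt p₁ F (gr a ω) / ((2 ^ (k + 1) * Fintype.card (SimpleGraph (Fin k))) *
          Real.exp (2 ^ F.edgeSet.ncard))) (fun F _ => hterm0 ω k F) (mem_univ F)
    have h3 := h2.trans h1
    have hN : (0 : ℝ) < (Fintype.card (SimpleGraph (Fin k)) : ℝ) := by
      exact_mod_cast Fintype.card_pos
    rw [div_le_iff₀ (by positivity)] at h3
    linarith

end H37Z.Tri
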