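import Pool.Agent.H37Z.Tri.Sample

set_option autoImplicit false

namespace H37Z.Tri

open Finset

section
variable {n : ℕ} (G : SimpleGraph (Fin n)) [DecidableRel G.Adj]

/-- common neighbours -/
def com (a c : Fin n) : Finset (Fin n) := univ.filter fun b => G.Adj a b ∧ G.Adj b c

/-- closed walks of length four -/
def walks : Finset ((Fin n × Fin n) × (Fin n × Fin n)) :=
  univ.filter fun t => (G.Adj t.1.1 t.2.1 ∧ G.Adj t.2.1 t.1.2) ∧
    (G.Adj t.1.1 t.2.2 ∧ G.Adj t.2.2 t.1.2)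

lemma card_walks : (walks G).card = ∑ q : Fin n × Fin n, (com G q.1 q.2).card ^ 2 := by
  have h : ∀ q : Fin n × Fin n, (com G q.1 q.2).card ^ 2 =
      ∑ r : Fin n × Fin n, if (G.Adj q.1 r.1 ∧ G.Adj r.1 q.2) ∧ (G.Adj q.1 r.2 ∧ G.Adj r.2 q.2)
        then 1 else 0 := by
    intro q
    rw [sq, ← card_product, ← card_filter]
    congr 1
    ext r
    simp only [com, mem_product, mem_filter, mem_univ, true_and]
  rw [sum_congr rfl fun q _ => h q, walks, card_filter, Fintype.sum_prod_type]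

lemma sum_com : ∑ q : Fin n × Fin n, (com G q.1 q.2).card = ∑ b : Fin n, G.degree b ^ 2 := by
  have h : ∀ b : Fin n, G.degree b ^ 2 =
      ∑ q : Fin n × Fin n, if G.Adj q.1 b ∧ G.Adj b q.2 then 1 else 0 := by
    intro b
    rw [← card_filter, sq, ← SimpleGraph.card_neighborFinset_eq_degree, ← card_product]
    congr 1
    ext q
    simp only [mem_product, mem_filter, mem_univ, true_and, SimpleGraph.mem_neighborFinset,
      G.adj_comm b q.1]
  rw [sum_congr rfl fun b _ => h b, sum_comm]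
  apply sum_congr rfl
  intro q _
  rw [com, card_filter]

lemma walks_lower (hn : 0 < n) :
    (2 * (G.edgeSet.ncard : ℝ)) ^ 4 / (n : ℝ) ^ 4 ≤ ((walks G).card : ℝ) := by
  have hn' : (0 : ℝ) < n := by exact_mod_cast hn
  have hdeg : ∑ b : Fin n, (G.degree b : ℝ) = 2 * (G.edgeSet.ncard : ℝ) := by
    have := G.sum_degrees_eq_twice_card_edges
    rw [← SimpleGraph.coe_edgeFinset, Set.ncard_coe_finset]
    exact_mod_cast this
  have h1 : (∑ b : Fin n, (G.degree b : ℝ)) ^ 2 ≤ n * ∑ b : Fin n, (G.degree b : ℝ) ^ 2 := by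
    have := sq_sum_le_card_mul_sum_sq (s := (univ : Finset (Fin n))) (f := fun b => (G.degree b : ℝ))
    simpa using this
  have h2 : (∑ q : Fin n × Fin n, ((com G q.1 q.2).card : ℝ)) ^ 2 ≤
      (n : ℝ) ^ 2 * ∑ q : Fin n × Fin n, ((com G q.1 q.2).card : ℝ) ^ 2 := by
    have := sq_sum_le_card_mul_sum_sq (s := (univ : Finset (Fin n × Fin n)))
      (f := fun q => ((com G q.1 q.2).card : ℝ))
    rw [card_univ, Fintype.card_prod, Fintype.card_fin] at this
    push_cast at this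
    calc _ ≤ _ := this
      _ = _ := by ring
  have h3 : (∑ q : Fin n × Fin n, ((com G q.1 q.2).card : ℝ)) = ∑ b : Fin n, (G.degree b : ℝ) ^ 2 := by
    exact_mod_cast sum_com G
  have h4 : ((walks G).card : ℝ) = ∑ q : Fin n × Fin n, ((com G q.1 q.2).card : ℝ) ^ 2 := by
    exact_mod_cast card_walks G
  rw [hdeg] at h1
  rw [h3] at h2
  rw [← h4] at h2
  set S := ∑ b : Fin n, (G.degree b : ℝ) ^ 2 with hS
  have hS0 : 0 ≤ S := sum_nonneg fun b _ => sq_nonneg _
  rw [div_le_iff₀ (by positivity)]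
  have h5 : ((2 * (G.edgeSet.ncard : ℝ)) ^ 2) ^ 2 ≤ (n * S) ^ 2 :=
    pow_le_pow_left₀ (sq_nonneg _) h1 2
  calc (2 * (G.edgeSet.ncard : ℝ)) ^ 4 = ((2 * (G.edgeSet.ncard : ℝ)) ^ 2) ^ 2 := by ring
    _ ≤ (n * S) ^ 2 := h5
    _ = (n : ℝ) ^ 2 * S ^ 2 := by ring
    _ ≤ (n : ℝ) ^ 2 * ((n : ℝ) ^ 2 * ((walks G).card : ℝ)) :=
        mul_le_mul_of_nonneg_left h2 (by positivity)
    _ = _ := by ring

end

lemma four_adj {n : ℕ} (G : SimpleGraph (Fin n)) (f : Fin 4 → Fin n)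
    (h01 : G.Adj (f 0) (f 1)) (h12 : G.Adj (f 1) (f 2)) (h23 : G.Adj (f 2) (f 3))
    (h30 : G.Adj (f 3) (f 0)) :
    ∀ x y, (SimpleGraph.cycleGraph 4).Adj x y → G.Adj (f x) (f y) := by
  intro x y hxy
  have : (x = 0 ∧ y = 1) ∨ (x = 1 ∧ y = 2) ∨ (x = 2 ∧ y = 3) ∨ (x = 3 ∧ y = 0) ∨
      (x = 1 ∧ y = 0) ∨ (x = 2 ∧ y = 1) ∨ (x = 3 ∧ y = 2) ∨ (x = 0 ∧ y = 3) := by
    revert hxy
    revert x y
    decide
  rcases this with ⟨rfl, rfl⟩ | ⟨rfl, rfl⟩ | ⟨rfl, rfl⟩ | ⟨rfl, rfl⟩ | ⟨rfl, rfl⟩ | ⟨rfl, rfl⟩ |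
    ⟨rfl, rfl⟩ | ⟨rfl, rfl⟩
  · exact h01
  · exact h12
  · exact h23
  · exact h30
  · exact h01.symm
  · exact h12.symm
  · exact h23.symm
  · exact h30.symm

open Classical in
lemma walks_upper {n : ℕ} (G : SimpleGraph (Fin n)) :
    ((walks G).card : ℝ) ≤ (G.labelledCopyCount (SimpleGraph.cycleGraph 4) : ℝ) + 2 * (n : ℝ) ^ 3 := by
  set D := (univ.filter fun f : Fin 4 ↪ Fin n =>
    ∀ x y, (SimpleGraph.cycleGraph 4).Adj x y → G.Adj (f x) (f y)) with hD
  have hDc : (G.labelledCopyCount (SimpleGraph.cycleGraph 4) : ℝ) = (D.card : ℝ) := by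
    rw [labelled_eq, hD, Finset.card_filter]
    push_cast
    refine sum_congr rfl fun f _ => ?_
    by_cases h : ∀ x y, (SimpleGraph.cycleGraph 4).Adj x y → G.Adj (f x) (f y)
    · rw [if_pos h, if_pos h]
    · rw [if_neg h, if_neg h]
  rw [hDc]
  -- degenerate walks
  set A := (univ.filter fun t : (Fin n × Fin n) × (Fin n × Fin n) => t.1.1 = t.1.2) with hA
  set B := (univ.filter fun t : (Fin n × Fin n) × (Fin n × Fin n) => t.2.1 = t.2.2) with hB
  have cA : A.card ≤ n ^ 3 := by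
    have : A.card ≤ (univ : Finset (Fin n × (Fin n × Fin n))).card := by
      apply card_le_card_of_injOn (fun t => (t.1.1, t.2)) (fun _ _ => mem_coe.2 (mem_univ _))
      intro t ht t' ht' h
      rw [hA, mem_coe, mem_filter] at ht ht'
      simp only [Prod.mk.injEq] at h
      refine Prod.ext (Prod.ext h.1 ?_) h.2
      rw [← ht.2, ← ht'.2, h.1]
    refine this.trans (le_of_eq ?_)
    rw [card_univ, Fintype.card_prod, Fintype.card_prod, Fintype.card_fin]
    ring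
  have cB : B.card ≤ n ^ 3 := by
    have : B.card ≤ (univ : Finset ((Fin n × Fin n) × Fin n)).card := by
      apply card_le_card_of_injOn (fun t => (t.1, t.2.1)) (fun _ _ => mem_coe.2 (mem_univ _))
      intro t ht t' ht' h
      rw [hB, mem_coe, mem_filter] at ht ht'
      simp only [Prod.mk.injEq] at h
      refine Prod.ext h.1 (Prod.ext h.2 ?_)
      rw [← ht.2, ← ht'.2, h.2]
    refine this.trans (le_of_eq ?_)
    rw [card_univ, Fintype.card_prod, Fintype.card_prod, Fintype.card_fin]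
    ring
  have cC : (walks G \ (A ∪ B)).card ≤ D.card := by
    apply card_le_card_of_surjOn (fun f : Fin 4 ↪ Fin n => ((f 0, f 2), (f 1, f 3)))
    intro t ht
    rw [mem_coe, mem_sdiff, mem_union, not_or, hA, hB, mem_filter, mem_filter, walks,
      mem_filter] at ht
    obtain ⟨⟨-, ⟨h1, h2⟩, h3, h4⟩, h5, h6⟩ := ht
    have h5' : t.1.1 ≠ t.1.2 := fun h => h5 ⟨mem_univ _, h⟩
    have h6' : t.2.1 ≠ t.2.2 := fun h => h6 ⟨mem_univ _, h⟩
    have hinj : Function.Injective (![t.1.1, t.2.1, t.1.2, t.2.2] : Fin 4 → Fin n) := by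
      intro x y hxy
      have e1 := h1.ne
      have e2 := h2.ne
      have e3 := h3.ne
      have e4 := h4.ne
      fin_cases x <;> fin_cases y <;> simp_all
    refine ⟨⟨_, hinj⟩, ?_, ?_⟩
    · rw [mem_coe, hD, mem_filter]
      refine ⟨mem_univ _, ?_⟩
      exact four_adj G _ h1 h2 h4.symm h3.symm
    · rfl
  have c1 : (walks G).card ≤ (walks G \ (A ∪ B)).card + (A ∪ B).card :=
    card_le_card_sdiff_add_card
  have c2 := card_union_le A B
  have : (walks G).card ≤ D.card + 2 * n ^ 3 := by omega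
  exact_mod_cast this

/-- The lower bound for the number of labelled four-cycles. -/
theorem four_lower {n : ℕ} (hn : 0 < n) (G : SimpleGraph (Fin n)) :
    (2 * (G.edgeSet.ncard : ℝ)) ^ 4 / (n : ℝ) ^ 4 - 2 * (n : ℝ) ^ 3 ≤
      (G.labelledCopyCount (SimpleGraph.cycleGraph 4) : ℝ) := by
  classical
  have h1 := walks_lower G hn
  have h2 := walks_upper G
  have h3 : ((walks G).card : ℝ) ≤ (G.labelledCopyCount (SimpleGraph.cycleGraph 4) : ℝ)
    + 2 * (n : ℝ) ^ 3 := by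
    convert h2
  linarith

end H37Z.Tri
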