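import Pool.Agent.H37Z.Tri.Step

set_option autoImplicit false

namespace H37Z.Tri

open Finset Filter Topology

/-- `1 / (n p^4)` tends to zero -/
lemma tendsto_aux (p : ℕ → ℝ) (hp : ∀ n, 0 < p n ∧ p n ≤ 1)
    (hsub : Tendsto (fun n : ℕ => Real.log (1 / p n) / Real.log n) atTop (𝓝 0)) :
    Tendsto (fun n : ℕ => 2 / ((n : ℝ) * p n ^ 4)) atTop (𝓝 0) := by
  have h1 : ∀ᶠ n : ℕ in atTop, Real.log (1 / p n) / Real.log n < 1 / 8 :=
    hsub.eventually (gt_mem_nhds (by norm_num))
  have hle : ∀ᶠ n : ℕ in atTop, 2 / ((n : ℝ) * p n ^ 4) ≤ 2 * (n : ℝ) ^ (-(1 / 2) : ℝ) := by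
    filter_upwards [h1, eventually_ge_atTop 2] with n hn hn2
    have hn0 : (0 : ℝ) < n := by exact_mod_cast (by omega : 0 < n)
    have hn1 : (1 : ℝ) < n := by exact_mod_cast (by omega : 1 < n)
    have hlog : 0 < Real.log n := Real.log_pos hn1
    rw [div_lt_iff₀ hlog, one_div, Real.log_inv] at hn
    have h2 : -(1 / 8) * Real.log n ≤ Real.log (p n) := by linarith
    have h3 : (n : ℝ) ^ (-(1 / 8) : ℝ) ≤ p n := by
      rw [Real.rpow_def_of_pos hn0, ← Real.exp_log (hp n).1]
      apply Real.exp_le_exp.2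
      linarith
    have h4 : (n : ℝ) ^ (-(1 / 2) : ℝ) ≤ p n ^ 4 := by
      have := pow_le_pow_left₀ (Real.rpow_nonneg hn0.le _) h3 4
      rw [← Real.rpow_natCast, ← Real.rpow_mul hn0.le] at this
      have e1 : (-(1 / 8) : ℝ) * ((4 : ℕ) : ℝ) = -(1 / 2) := by norm_num
      rw [e1] at this
      exact this
    have h5 : (n : ℝ) ^ (1 / 2 : ℝ) ≤ (n : ℝ) * p n ^ 4 := by
      have h6 : (n : ℝ) * (n : ℝ) ^ (-(1 / 2) : ℝ) = (n : ℝ) ^ (1 / 2 : ℝ) := by
        nth_rewrite 1 [← Real.rpow_one (n : ℝ)]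
        rw [← Real.rpow_add hn0]
        norm_num
      rw [← h6]
      exact mul_le_mul_of_nonneg_left h4 hn0.le
    rw [Real.rpow_neg hn0.le, ← div_eq_mul_inv]
    exact div_le_div_of_nonneg_left (by norm_num) (Real.rpow_pos_of_pos hn0 _) h5
  have h0 : Tendsto (fun n : ℕ => 2 * (n : ℝ) ^ (-(1 / 2) : ℝ)) atTop (𝓝 0) := by
    have := (tendsto_rpow_neg_atTop (y := 1 / 2) (by norm_num)).comp
      (tendsto_natCast_atTop_atTop (R := ℝ))
    have h2 := this.const_mul 2
    rw [mul_zero] at h2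
    exact h2
  refine squeeze_zero' ?_ hle h0
  filter_upwards with n
  have := (hp n).1
  positivity

/-- The general construction. -/
theorem main (p : ℕ → ℝ) (hp : ∀ n, 0 < p n ∧ p n ≤ 1) (hp0 : Tendsto p atTop (𝓝 0))
    (hsub : Tendsto (fun n : ℕ => Real.log (1 / p n) / Real.log n) atTop (𝓝 0))
    (hint : ∀ n : ℕ, ∃ N : ℕ, p n * (n.choose 2 : ℝ) = N) :
    ∃ G : (n : ℕ) → SimpleGraph (Fin n),
      (∀ n : ℕ, ((G n).edgeSet.ncard : ℝ) = p n * (n.choose 2 : ℝ)) ∧
      Tendsto (fun n => cnt (p n) (SimpleGraph.cycleGraph 4) (G n)) atTop (𝓝 1) ∧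
      (∀ (k : ℕ) (F : SimpleGraph (Fin k)), BddAbove (Set.range fun n => cnt (p n) F (G n))) ∧
      Tendsto (fun n => cnt (p n) (⊤ : SimpleGraph (Fin 3)) (G n)) atTop (𝓝 0) := by
  classical
  choose N hN using hint
  let t : ℕ → ℕ := fun n => ⌊Real.logb 2 (1 / p n)⌋₊
  let L : ℕ → ℕ := fun n => Nat.findGreatest (fun l => l ^ 7 + 2 ≤ t n) (t n)
  have ht : Tendsto t atTop atTop := by
    apply tendsto_nat_floor_atTop.comp
    have h1 : Tendsto (fun n => 1 / p n) atTop atTop := by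
      have h2 : Tendsto p atTop (𝓝[>] 0) :=
        tendsto_nhdsWithin_iff.2 ⟨hp0, Eventually.of_forall fun n => (hp n).1⟩
      have h3 := h2.inv_tendsto_nhdsGT_zero
      refine h3.congr fun n => ?_
      rw [one_div]
      rfl
    exact (Real.tendsto_logb_atTop (by norm_num)).comp h1
  have hLt : Tendsto L atTop atTop := by
    rw [tendsto_atTop]
    intro l
    filter_upwards [ht.eventually_ge_atTop (l ^ 7 + 2 + l)] with n hn
    apply Nat.le_findGreatest
    · omega
    · omega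
  have hLspec : ∀ᶠ n in atTop, p n * 2 ^ (L n ^ 7) ≤ 1 / 4 := by
    filter_upwards [ht.eventually_ge_atTop 2] with n hn
    have h1 : L n ^ 7 + 2 ≤ t n :=
      Nat.findGreatest_spec (P := fun l => l ^ 7 + 2 ≤ t n) (m := 0) (Nat.zero_le _) (by simpa using hn)
    have h2 : ((L n ^ 7 + 2 : ℕ) : ℝ) ≤ Real.logb 2 (1 / p n) := by
      refine le_trans (by exact_mod_cast h1) (Nat.floor_le ?_)
      apply Real.logb_nonneg (by norm_num)
      rw [le_div_iff₀ (hp n).1]
      linarith [(hp n).2]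
    have h3 : (2 : ℝ) ^ (L n ^ 7 + 2) ≤ 1 / p n := by
      rw [Real.le_logb_iff_rpow_le (by norm_num) (by have := (hp n).1; positivity),
        Real.rpow_natCast] at h2
      exact h2
    rw [le_div_iff₀ (hp n).1] at h3
    have h4 : (2 : ℝ) ^ (L n ^ 7 + 2) = 2 ^ (L n ^ 7) * 4 := by rw [pow_add]; norm_num
    rw [h4] at h3
    linarith
  let η : ℕ → ℝ := fun n => Real.exp (16 / (L n : ℝ)) - 1 + 2 / ((n : ℝ) * p n ^ 4) + 4 / (n : ℝ)
  let x : ℕ → ℝ := fun n => Real.sqrt (3 * η n)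
  have hη0 : Tendsto η atTop (𝓝 0) := by
    have hLr : Tendsto (fun n => (L n : ℝ)) atTop atTop :=
      tendsto_natCast_atTop_atTop.comp hLt
    have h1 : Tendsto (fun n => Real.exp (16 / (L n : ℝ)) - 1) atTop (𝓝 0) := by
      have h2 : Tendsto (fun n => 16 / (L n : ℝ)) atTop (𝓝 0) := hLr.const_div_atTop 16
      have h3 := (Real.continuous_exp.tendsto 0).comp h2
      have h4 := h3.sub_const 1
      simpa using h4
    have h5 := tendsto_aux p hp hsub
    have h6 : Tendsto (fun n : ℕ => 4 / (n : ℝ)) atTop (𝓝 0) :=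
      (tendsto_natCast_atTop_atTop (R := ℝ)).const_div_atTop 4
    have := (h1.add h5).add h6
    simpa using this
  have hx0 : Tendsto x atTop (𝓝 0) := by
    have h1 := hη0.const_mul 3
    rw [mul_zero] at h1
    have h2 := (Real.continuous_sqrt.tendsto 0).comp h1
    rw [Real.sqrt_zero] at h2
    exact h2
  let cond : ℕ → Prop := fun n => 8 ≤ n ∧ 1 ≤ L n ∧ p n * 2 ^ (L n ^ 7) ≤ 1 / 4 ∧ x n ≤ 1 / 2
  have hcond : ∀ᶠ n in atTop, cond n := by
    filter_upwards [eventually_ge_atTop 8, hLt.eventually_ge_atTop 1, hLspec,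
      hx0.eventually (gt_mem_nhds (by norm_num : (0 : ℝ) < 1 / 2))] with n h1 h2 h3 h4
    exact ⟨h1, h2, h3, h4.le⟩
  have hex : ∀ n : ℕ, ∃ G : SimpleGraph (Fin n), G.edgeSet.ncard = N n ∧ (cond n →
      cnt (p n) (SimpleGraph.cycleGraph 4) G ≤
        (1 + 3 * η n + 4 * x n) * ((1 + 2 * x n) * (1 + x n)) ^ 4 ∧
      cnt (p n) (⊤ : SimpleGraph (Fin 3)) G ≤ 81 * Real.exp (- (L n : ℝ)) ∧
      ∀ k ≤ n, ∀ F : SimpleGraph (Fin k), cnt (p n) F G ≤
        3 * (2 ^ (k + 1) * Fintype.card (SimpleGraph (Fin k))) *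
          Real.exp (2 ^ F.edgeSet.ncard) * 3 ^ F.edgeSet.ncard) := by
    intro n
    by_cases hc : cond n
    · obtain ⟨G, g1, g2⟩ := step hc.1 hc.2.1 (hp n).1 (hN n) hc.2.2.1 rfl rfl hc.2.2.2
      exact ⟨G, g1, fun _ => g2⟩
    · have h1 : N n ≤ n.choose 2 := by
        have h2 : ((N n : ℕ) : ℝ) ≤ (n.choose 2 : ℝ) := by
          rw [← hN n]
          calc p n * (n.choose 2 : ℝ) ≤ 1 * (n.choose 2 : ℝ) :=
                mul_le_mul_of_nonneg_right (hp n).2 (Nat.cast_nonneg _)
            _ = _ := one_mul _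
        exact_mod_cast h2
      obtain ⟨G, hG⟩ := exists_graph h1
      exact ⟨G, hG, fun h => absurd h hc⟩
  choose G hG1 hG2 using hex
  have hedge : ∀ n : ℕ, ((G n).edgeSet.ncard : ℝ) = p n * (n.choose 2 : ℝ) := by
    intro n; rw [hG1 n, hN n]
  refine ⟨G, hedge, ?_, ?_, ?_⟩
  · -- four-cycles
    have hlow : ∀ᶠ n : ℕ in atTop, (1 - 4 / (n : ℝ)) - 2 / ((n : ℝ) * p n ^ 4) ≤
        cnt (p n) (SimpleGraph.cycleGraph 4) (G n) := by
      filter_upwards [eventually_ge_atTop 4] with n hn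
      have h1 := det_lower hn (hp n).1 (G n)
      have h2 : edg (p n) (G n) = 1 := by
        unfold edg
        rw [hedge n]
        have h3 : (0 : ℝ) < (n.choose 2 : ℝ) := by
          exact_mod_cast Nat.choose_pos (by omega : 2 ≤ n)
        have h4 := (hp n).1
        rw [mul_comm, div_self (by positivity)]
      rw [h2] at h1
      simpa using h1
    have hup : ∀ᶠ n : ℕ in atTop, cnt (p n) (SimpleGraph.cycleGraph 4) (G n) ≤
        (1 + 3 * η n + 4 * x n) * ((1 + 2 * x n) * (1 + x n)) ^ 4 := by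
      filter_upwards [hcond] with n hn
      exact (hG2 n hn).1
    have t1 : Tendsto (fun n : ℕ => (1 - 4 / (n : ℝ)) - 2 / ((n : ℝ) * p n ^ 4)) atTop (𝓝 1) := by
      have h6 : Tendsto (fun n : ℕ => 4 / (n : ℝ)) atTop (𝓝 0) :=
        (tendsto_natCast_atTop_atTop (R := ℝ)).const_div_atTop 4
      have := (h6.const_sub 1).sub (tendsto_aux p hp hsub)
      simpa using this
    have t2 : Tendsto (fun n : ℕ => (1 + 3 * η n + 4 * x n) * ((1 + 2 * x n) * (1 + x n)) ^ 4)
        atTop (𝓝 1) := by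
      have h1 := ((hη0.const_mul 3).const_add 1).add (hx0.const_mul 4)
      have h2 := (((hx0.const_mul 2).const_add 1).mul (hx0.const_add 1)).pow 4
      have := h1.mul h2
      simpa using this
    exact tendsto_of_tendsto_of_tendsto_of_le_of_le' t1 t2 hlow hup
  · -- boundedness
    intro k F
    have hb : IsBoundedUnder (· ≤ ·) atTop (fun n => cnt (p n) F (G n)) := by
      refine ⟨3 * (2 ^ (k + 1) * Fintype.card (SimpleGraph (Fin k))) *
          Real.exp (2 ^ F.edgeSet.ncard) * 3 ^ F.edgeSet.ncard, ?_⟩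
      rw [eventually_map]
      filter_upwards [hcond, eventually_ge_atTop k] with n hn hk
      exact (hG2 n hn).2.2 k hk F
    exact hb.bddAbove_range
  · -- triangles
    have h1 : Tendsto (fun n => 81 * Real.exp (- (L n : ℝ))) atTop (𝓝 0) := by
      have hLr : Tendsto (fun n => (L n : ℝ)) atTop atTop :=
        tendsto_natCast_atTop_atTop.comp hLt
      have := (Real.tendsto_exp_neg_atTop_nhds_zero.comp hLr).const_mul 81
      rw [mul_zero] at this
      exact this
    refine squeeze_zero' (Eventually.of_forall fun n => cnt_nonneg (hp n).1.le _ _) ?_ h1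
    filter_upwards [hcond] with n hn
    exact (hG2 n hn).2.1

/-- a density which tends to zero slowly -/
noncomputable def slow (n : ℕ) : ℝ :=
  if n < 2 then 1 else (⌈(n.choose 2 : ℝ) / (1 + Real.log n)⌉₊ : ℝ) / (n.choose 2 : ℝ)

lemma slow_bounds (n : ℕ) (hn : 2 ≤ n) :
    1 / (1 + Real.log n) ≤ slow n ∧ slow n ≤ 1 / (1 + Real.log n) + 1 / (n.choose 2 : ℝ) ∧
      slow n ≤ 1 := by
  have hn0 : (1 : ℝ) < n := by exact_mod_cast (by omega : 1 < n)
  have hlog : 0 < Real.log n := Real.log_pos hn0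
  have hch0 : (0 : ℝ) < (n.choose 2 : ℝ) := by
    exact_mod_cast Nat.choose_pos hn
  unfold slow
  rw [if_neg (by omega)]
  have h0 : (0 : ℝ) ≤ (n.choose 2 : ℝ) / (1 + Real.log n) := by positivity
  refine ⟨?_, ?_, ?_⟩
  · rw [le_div_iff₀ hch0]
    refine le_trans (le_of_eq ?_) (Nat.le_ceil _)
    ring
  · rw [div_le_iff₀ hch0]
    refine le_trans (Nat.ceil_lt_add_one h0).le (le_of_eq ?_)
    field_simp
  · rw [div_le_one hch0]
    have : ⌈(n.choose 2 : ℝ) / (1 + Real.log n)⌉₊ ≤ n.choose 2 := by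
      rw [Nat.ceil_le]
      apply div_le_self hch0.le
      linarith
    exact_mod_cast this

lemma slow_pos (n : ℕ) : 0 < slow n ∧ slow n ≤ 1 := by
  rcases Nat.lt_or_ge n 2 with h | h
  · unfold slow; rw [if_pos h]; norm_num
  · have h1 := slow_bounds n h
    refine ⟨lt_of_lt_of_le ?_ h1.1, h1.2.2⟩
    have hn0 : (1 : ℝ) < n := by exact_mod_cast (by omega : 1 < n)
    have hlog : 0 < Real.log n := Real.log_pos hn0
    positivity

lemma slow_int (n : ℕ) : ∃ N : ℕ, slow n * (n.choose 2 : ℝ) = N := by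
  rcases Nat.lt_or_ge n 2 with h | h
  · exact ⟨0, by rw [Nat.choose_eq_zero_of_lt h]; simp⟩
  · refine ⟨⌈(n.choose 2 : ℝ) / (1 + Real.log n)⌉₊, ?_⟩
    have hch0 : (0 : ℝ) < (n.choose 2 : ℝ) := by
      exact_mod_cast Nat.choose_pos h
    unfold slow
    rw [if_neg (by omega), div_mul_cancel₀ _ hch0.ne']

lemma log_atTop : Tendsto (fun n : ℕ => 1 + Real.log (n : ℝ)) atTop atTop :=
  tendsto_atTop_add_const_left _ _ (Real.tendsto_log_atTop.comp tendsto_natCast_atTop_atTop)

lemma slow_tendsto : Tendsto slow atTop (𝓝 0) := by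
  have h1 : Tendsto (fun n : ℕ => 1 / (1 + Real.log n) + 1 / (n.choose 2 : ℝ)) atTop (𝓝 0) := by
    have h2 : Tendsto (fun n : ℕ => 1 / (1 + Real.log (n : ℝ))) atTop (𝓝 0) :=
      log_atTop.const_div_atTop 1
    have h3 : Tendsto (fun n : ℕ => (n.choose 2 : ℝ)) atTop atTop := by
      apply tendsto_natCast_atTop_atTop.comp
      rw [tendsto_atTop]
      intro b
      filter_upwards [eventually_ge_atTop (b + 2)] with n hn
      have h4 : n.choose 2 = n * (n - 1) / 2 := Nat.choose_two_right n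
      rw [h4, Nat.le_div_iff_mul_le (by norm_num)]
      have h5 : b + 1 ≤ n - 1 := by omega
      calc b * 2 ≤ n * 1 + b * 1 := by omega
        _ ≤ n * (n - 1) := by nlinarith
    have h4 : Tendsto (fun n : ℕ => 1 / (n.choose 2 : ℝ)) atTop (𝓝 0) := h3.const_div_atTop 1
    simpa using h2.add h4
  refine squeeze_zero' (Eventually.of_forall fun n => (slow_pos n).1.le) ?_ h1
  filter_upwards [eventually_ge_atTop 2] with n hn
  exact (slow_bounds n hn).2.1

lemma slow_rate : Tendsto (fun n : ℕ => Real.log (1 / slow n) / Real.log n) atTop (𝓝 0) := by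
  have h1 : Tendsto (fun n : ℕ => Real.log (1 + Real.log n) / Real.log n) atTop (𝓝 0) := by
    have h2 : Tendsto (fun y : ℝ => Real.log (1 + y) / y) atTop (𝓝 0) := by
      have h3 : Tendsto (fun y : ℝ => Real.log (1 + y) / (1 + y)) atTop (𝓝 0) := by
        have h4 : Tendsto (fun z : ℝ => Real.log z / z) atTop (𝓝 0) := by
          have := Real.isLittleO_log_id_atTop.tendsto_div_nhds_zero
          simpa using this
        exact h4.comp (tendsto_atTop_add_const_left _ _ tendsto_id)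
      have h5 : Tendsto (fun y : ℝ => 2 * (Real.log (1 + y) / (1 + y))) atTop (𝓝 0) := by
        simpa using h3.const_mul 2
      refine squeeze_zero' ?_ ?_ h5
      · filter_upwards [eventually_ge_atTop 1] with y hy
        have : 0 ≤ Real.log (1 + y) := Real.log_nonneg (by linarith)
        positivity
      · filter_upwards [eventually_ge_atTop 1] with y hy
        have h6 : 0 ≤ Real.log (1 + y) := Real.log_nonneg (by linarith)
        rw [mul_div_assoc', div_le_div_iff₀ (by linarith) (by linarith)]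
        nlinarith
    exact h2.comp (Real.tendsto_log_atTop.comp tendsto_natCast_atTop_atTop)
  refine squeeze_zero' ?_ ?_ h1
  · filter_upwards [eventually_ge_atTop 2] with n hn
    have hn0 : (1 : ℝ) < n := by exact_mod_cast (by omega : 1 < n)
    have hlog : 0 < Real.log n := Real.log_pos hn0
    apply div_nonneg _ hlog.le
    apply Real.log_nonneg
    rw [le_div_iff₀ (slow_pos n).1]
    linarith [(slow_pos n).2]
  · filter_upwards [eventually_ge_atTop 2] with n hn
    have hn0 : (1 : ℝ) < n := by exact_mod_cast (by omega : 1 < n)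
    have hlog : 0 < Real.log n := Real.log_pos hn0
    apply div_le_div_of_nonneg_right _ hlog.le
    apply Real.log_le_log
    · have := (slow_pos n).1
      positivity
    · have h2 := (slow_bounds n hn).1
      rw [div_le_iff₀ (slow_pos n).1]
      rw [div_le_iff₀ (by linarith)] at h2
      linarith

end H37Z.Tri
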