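import Pool.Agent.H37Z.Tri.Char

set_option autoImplicit false

namespace H37Z.Tri

open Finset

/-- counting functions with bounds on a set of arguments -/
lemma sum_noise {E : Type*} [Fintype E] [DecidableEq E] (T : Finset E) (N : ℕ) (thr : E → ℕ)
    (h : ∀ e ∈ T, thr e ≤ N) (hN : 0 < N) :
    (∑ c : E → Fin N, if ∀ e ∈ T, (c e).val < thr e then (1 : ℝ) else 0) =
      (∏ e ∈ T, ((thr e : ℝ) / N)) * (N : ℝ) ^ Fintype.card E := by
  have hN' : (N : ℝ) ≠ 0 := by exact_mod_cast hN.ne'
  have h1 : (∑ c : E → Fin N, if ∀ e ∈ T, (c e).val < thr e then (1 : ℝ) else 0) =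
      ∑ c : E → Fin N, ∏ e, (if e ∈ T then (if (c e).val < thr e then (1 : ℝ) else 0) else 1) := by
    apply sum_congr rfl
    intro c _
    by_cases hc : ∀ e ∈ T, (c e).val < thr e
    · rw [if_pos hc]
      symm
      apply prod_eq_one
      intro e _
      by_cases he : e ∈ T
      · rw [if_pos he, if_pos (hc e he)]
      · rw [if_neg he]
    · rw [if_neg hc]
      push Not at hc
      obtain ⟨e, he, h2⟩ := hc
      symm
      apply prod_eq_zero (mem_univ e)
      rw [if_pos he, if_neg (by omega)]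
  have h2 : ∑ c : E → Fin N, ∏ e, (if e ∈ T then (if (c e).val < thr e then (1 : ℝ) else 0) else 1) =
      ∏ e : E, ∑ x : Fin N, (if e ∈ T then (if x.val < thr e then (1 : ℝ) else 0) else 1) := by
    rw [Fintype.prod_sum]
  have h3 : ∀ e : E, ∑ x : Fin N, (if e ∈ T then (if x.val < thr e then (1 : ℝ) else 0) else 1) =
      (if e ∈ T then ((thr e : ℝ) / N) else 1) * N := by
    intro e
    by_cases he : e ∈ T
    · simp only [if_pos he]
      rw [div_mul_cancel₀ _ hN', sum_ite, sum_const_zero, add_zero, sum_const, nsmul_eq_mul, mul_one]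
      congr 1
      have : (univ.filter fun x : Fin N => x.val < thr e).card = thr e := by
        have h4 : (univ.filter fun x : Fin N => x.val < thr e).map Fin.valEmbedding =
            range (thr e) := by
          ext x
          simp only [mem_map, mem_filter, mem_univ, true_and, Fin.valEmbedding_apply, mem_range]
          constructor
          · rintro ⟨y, hy, rfl⟩; exact hy
          · intro hx; exact ⟨⟨x, lt_of_lt_of_le hx (h e he)⟩, hx, rfl⟩
        rw [← card_map Fin.valEmbedding, h4, card_range]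
      exact this
    · simp only [if_neg he]
      simp
  rw [h1, h2, prod_congr rfl fun e _ => h3 e, prod_mul_distrib, prod_const, card_univ]
  congr 1
  rw [prod_ite_mem, univ_inter]

/-- do the two ends have the same type -/
def same {n : ℕ} (τ : Fin n → Bool) : Sym2 (Fin n) → Bool :=
  Sym2.lift ⟨fun u v => τ u == τ v, fun u v => by
    show (τ u == τ v) = (τ v == τ u)
    cases τ u <;> cases τ v <;> rfl⟩

/-- the threshold of a pair in a layer -/
def thr {n : ℕ} (K : ℕ) (τ : Fin n → Bool) (e : Sym2 (Fin n)) : ℕ :=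
  if same τ e = true then K - 1 else K + 1

lemma thr_le {n : ℕ} {K : ℕ} (hK : 1 ≤ K) (τ : Fin n → Bool) (e : Sym2 (Fin n)) :
    thr K τ e ≤ 2 * K := by
  unfold thr; split_ifs <;> omega

lemma thr_div {n : ℕ} {K : ℕ} (hK : 1 ≤ K) (τ : Fin n → Bool) (e : Sym2 (Fin n)) :
    (thr K τ e : ℝ) / ((2 * K : ℕ) : ℝ) = (1 - (1 / (K : ℝ)) * chi τ e) / 2 := by
  have hK' : (K : ℝ) ≠ 0 := by
    have : (0 : ℝ) < K := by exact_mod_cast hK
    exact this.ne'
  have h1 : chi τ e = if same τ e = true then 1 else -1 := by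
    induction e using Sym2.ind with
    | _ u v =>
      rw [chi_mk]
      show sg (τ u) * sg (τ v) = if (τ u == τ v) = true then (1 : ℝ) else -1
      cases τ u <;> cases τ v <;> simp [sg]
  rw [h1]
  unfold thr
  split_ifs with h
  · rw [Nat.cast_sub hK]
    push_cast
    field_simp
  · push_cast
    field_simp
    ring

/-- a layer: the types of the vertices and the noise of the pairs -/
abbrev Lam (n K : ℕ) : Type := (Fin n → Bool) × (Sym2 (Fin n) → Fin (2 * K))

/-- the sample space -/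
abbrev Om (n m K M : ℕ) : Type := (Sym2 (Fin n) → Fin M) × (Fin m → Lam n K)

/-- the pair `e` is accepted -/
def good {n m K M : ℕ} (a : ℕ) (ω : Om n m K M) (e : Sym2 (Fin n)) : Prop :=
  (ω.1 e).val < a ∧ ∀ i, ((ω.2 i).2 e).val < thr K (ω.2 i).1 e

/-- the random graph -/
def gr {n m K M : ℕ} (a : ℕ) (ω : Om n m K M) : SimpleGraph (Fin n) :=
  SimpleGraph.fromEdgeSet {e | good a ω e}

lemma gr_adj {n m K M : ℕ} (a : ℕ) (ω : Om n m K M) (u v : Fin n) :
    (gr a ω).Adj u v ↔ good a ω s(u, v) ∧ u ≠ v := by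
  unfold gr
  rw [SimpleGraph.fromEdgeSet_adj]
  rfl

lemma sum_layer {n K : ℕ} (hK : 1 ≤ K) (T : Finset (Sym2 (Fin n))) :
    (∑ l : Lam n K, if ∀ e ∈ T, (l.2 e).val < thr K l.1 e then (1 : ℝ) else 0) =
      (lay T (1 / (K : ℝ)) / 2 ^ T.card) * (Fintype.card (Lam n K) : ℝ) := by
  have h1 : ∀ τ : Fin n → Bool,
      (∑ c : Sym2 (Fin n) → Fin (2 * K), if ∀ e ∈ T, (c e).val < thr K τ e then (1 : ℝ) else 0) =
      (∏ e ∈ T, (1 - (1 / (K : ℝ)) * chi τ e)) / 2 ^ T.card *
        ((2 * K : ℕ) : ℝ) ^ Fintype.card (Sym2 (Fin n)) := by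
    intro τ
    rw [sum_noise T (2 * K) (thr K τ) (fun e _ => thr_le hK τ e) (by omega)]
    congr 1
    rw [prod_congr rfl fun e _ => thr_div hK τ e, prod_div_distrib, prod_const]
  rw [Fintype.sum_prod_type, sum_congr rfl fun τ _ => h1 τ, ← sum_mul, ← sum_div]
  unfold lay
  rw [Fintype.card_prod, Fintype.card_fun, Fintype.card_fun, Fintype.card_bool, Fintype.card_fin,
    Fintype.card_fin]
  push_cast
  have h2 : (2 : ℝ) ^ n ≠ 0 := by positivity
  field_simp

lemma sum_good {n m K M a : ℕ} (hK : 1 ≤ K) (haM : a ≤ M) (hM : 0 < M)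
    (T : Finset (Sym2 (Fin n))) [∀ ω : Om n m K M, Decidable (∀ e ∈ T, good a ω e)] :
    (∑ ω : Om n m K M, if ∀ e ∈ T, good a ω e then (1 : ℝ) else 0) =
      ((a : ℝ) / M) ^ T.card * (lay T (1 / (K : ℝ)) / 2 ^ T.card) ^ m *
        (Fintype.card (Om n m K M) : ℝ) := by
  have h1 : ∀ ω : Om n m K M, (if ∀ e ∈ T, good a ω e then (1 : ℝ) else 0) =
      (if ∀ e ∈ T, (ω.1 e).val < a then (1 : ℝ) else 0) *
        ∏ i, (if ∀ e ∈ T, ((ω.2 i).2 e).val < thr K (ω.2 i).1 e then (1 : ℝ) else 0) := by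
    intro ω
    by_cases hc : ∀ e ∈ T, good a ω e
    · rw [if_pos hc, if_pos (fun e he => (hc e he).1), one_mul]
      symm
      apply prod_eq_one
      intro i _
      rw [if_pos (fun e he => (hc e he).2 i)]
    · rw [if_neg hc]
      by_cases h2 : ∀ e ∈ T, (ω.1 e).val < a
      · rw [if_pos h2, one_mul]
        symm
        push Not at hc
        obtain ⟨e, he, h3⟩ := hc
        have h4 : ¬ ∀ i, ((ω.2 i).2 e).val < thr K (ω.2 i).1 e := fun h => h3 ⟨h2 e he, h⟩
        push Not at h4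
        obtain ⟨i, hi⟩ := h4
        apply prod_eq_zero (mem_univ i)
        rw [if_neg]
        intro h
        exact absurd (h e he) (by omega)
      · rw [if_neg h2, zero_mul]
  have h2 : ∑ ω : Om n m K M, (if ∀ e ∈ T, (ω.1 e).val < a then (1 : ℝ) else 0) *
      ∏ i, (if ∀ e ∈ T, ((ω.2 i).2 e).val < thr K (ω.2 i).1 e then (1 : ℝ) else 0) =
      (∑ c : Sym2 (Fin n) → Fin M, (if ∀ e ∈ T, (c e).val < a then (1 : ℝ) else 0)) *
      ∑ l : Fin m → Lam n K, ∏ i, (if ∀ e ∈ T, ((l i).2 e).val < thr K (l i).1 e then (1 : ℝ)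
        else 0) := by
    rw [sum_mul_sum, Fintype.sum_prod_type]
  rw [sum_congr rfl fun ω _ => h1 ω, h2, ← Fintype.sum_pow (fun l : Lam n K =>
    if ∀ e ∈ T, (l.2 e).val < thr K l.1 e then (1 : ℝ) else 0) m, sum_layer hK T,
    sum_noise T M (fun _ => a) (fun _ _ => haM) hM, prod_const]
  have hOm : (Fintype.card (Om n m K M) : ℝ) =
      (M : ℝ) ^ Fintype.card (Sym2 (Fin n)) * (Fintype.card (Lam n K) : ℝ) ^ m := by
    have e1 : Fintype.card (Om n m K M) =
        Fintype.card (Sym2 (Fin n) → Fin M) * Fintype.card (Fin m → Lam n K) :=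
      Fintype.card_prod _ _
    have e2 : Fintype.card (Sym2 (Fin n) → Fin M) = M ^ Fintype.card (Sym2 (Fin n)) := by
      rw [Fintype.card_fun, Fintype.card_fin]
    have e3 : Fintype.card (Fin m → Lam n K) = Fintype.card (Lam n K) ^ m := by
      rw [Fintype.card_fun, Fintype.card_fin]
    rw [e1, e2, e3]
    push_cast
    ring
  rw [hOm]
  ring

/-- the pairs used by a map -/
def img {k n : ℕ} (F : SimpleGraph (Fin k)) [DecidableRel F.Adj] (f : Fin k ↪ Fin n) :
    Finset (Sym2 (Fin n)) := F.edgeFinset.image (Sym2.map f)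

lemma card_img {k n : ℕ} (F : SimpleGraph (Fin k)) [DecidableRel F.Adj] (f : Fin k ↪ Fin n) :
    (img F f).card = F.edgeFinset.card :=
  card_image_of_injective _ (Sym2.map.injective f.injective)

lemma img_nondiag {k n : ℕ} (F : SimpleGraph (Fin k)) [DecidableRel F.Adj] (f : Fin k ↪ Fin n) :
    ∀ e ∈ img F f, ¬ e.IsDiag := by
  intro e he
  obtain ⟨e', he', rfl⟩ := mem_image.1 he
  rw [Sym2.isDiag_map f.injective]
  rw [SimpleGraph.mem_edgeFinset] at he'
  exact F.not_isDiag_of_mem_edgeSet he'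

lemma hom_iff {k n m K M : ℕ} (a : ℕ) (F : SimpleGraph (Fin k)) [DecidableRel F.Adj]
    (f : Fin k ↪ Fin n) (ω : Om n m K M) :
    (∀ x y, F.Adj x y → (gr a ω).Adj (f x) (f y)) ↔ ∀ e ∈ img F f, good a ω e := by
  constructor
  · intro h e he
    obtain ⟨e', he', rfl⟩ := mem_image.1 he
    rw [SimpleGraph.mem_edgeFinset] at he'
    induction e' using Sym2.ind with
    | _ x y =>
      have := h x y he'
      rw [gr_adj] at this
      exact this.1
  · intro h x y hxy
    rw [gr_adj]
    refine ⟨h _ (mem_image.2 ⟨s(x, y), ?_, rfl⟩), fun hh => hxy.ne (f.injective hh)⟩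
    rw [SimpleGraph.mem_edgeFinset]
    exact hxy

lemma card_eq_of_equiv {α β : Type*} (i : Fintype α) (j : Fintype β) (e : α ≃ β) :
    @Fintype.card α i = @Fintype.card β j := Fintype.card_congr e

open Classical in
/-- the number of labelled copies as a sum -/
lemma labelled_eq {k n : ℕ} (F : SimpleGraph (Fin k)) (G : SimpleGraph (Fin n)) :
    (G.labelledCopyCount F : ℝ) =
      ∑ f : Fin k ↪ Fin n, if ∀ x y, F.Adj x y → G.Adj (f x) (f y) then (1 : ℝ) else 0 := by
  rw [sum_ite, sum_const_zero, add_zero, sum_const, nsmul_eq_mul, mul_one]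
  congr 1
  unfold SimpleGraph.labelledCopyCount
  rw [← Fintype.card_subtype]
  refine card_eq_of_equiv _ _
    { toFun := fun c => ⟨c.toEmbedding, fun x y h => c.toHom.map_adj h⟩
      invFun := fun f => ⟨⟨f.1, fun {x y} h => f.2 x y h⟩, f.1.injective⟩
      left_inv := fun c => rfl
      right_inv := fun f => rfl }

open Classical in
/-- the sum of the numbers of labelled copies -/
lemma sum_labelled {k n m K M a : ℕ} (hK : 1 ≤ K) (haM : a ≤ M) (hM : 0 < M)
    (F : SimpleGraph (Fin k)) :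
    (∑ ω : Om n m K M, ((gr a ω).labelledCopyCount F : ℝ)) =
      ∑ f : Fin k ↪ Fin n, ((a : ℝ) / M) ^ F.edgeSet.ncard *
        (lay (img F f) (1 / (K : ℝ)) / 2 ^ F.edgeSet.ncard) ^ m *
        (Fintype.card (Om n m K M) : ℝ) := by
  have hcard : F.edgeSet.ncard = F.edgeFinset.card := by
    rw [← SimpleGraph.coe_edgeFinset, Set.ncard_coe_finset]
  rw [sum_congr rfl fun ω _ => labelled_eq F (gr a ω), sum_comm]
  apply sum_congr rfl
  intro f _
  rw [hcard, ← card_img F f, ← sum_good hK haM hM (img F f)]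
  apply sum_congr rfl
  intro ω _
  by_cases h : ∀ e ∈ img F f, good a ω e
  · rw [if_pos h, if_pos ((hom_iff a F f ω).2 h)]
  · rw [if_neg h, if_neg (fun h' => h ((hom_iff a F f ω).1 h'))]

end H37Z.Tri
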