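import Pool.Agent.H37Z.Tri.Core

set_option autoImplicit false

namespace H37Z.Tri

open Finset

lemma labelled_mono {k n : ℕ} (F : SimpleGraph (Fin k)) {G G' : SimpleGraph (Fin n)}
    (h : G' ≤ G) : (G'.labelledCopyCount F : ℝ) ≤ (G.labelledCopyCount F : ℝ) := by
  classical
  rw [labelled_eq, labelled_eq]
  apply sum_le_sum
  intro f _
  by_cases h1 : ∀ x y, F.Adj x y → G'.Adj (f x) (f y)
  · have h2 : ∀ x y, F.Adj x y → G.Adj (f x) (f y) := fun x y hxy => h (h1 x y hxy)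
    rw [if_pos h1, if_pos h2]
  · rw [if_neg h1]
    split_ifs
    · exact zero_le_one
    · exact le_refl _

lemma exists_sub {n N : ℕ} (G : SimpleGraph (Fin n)) (h : N ≤ G.edgeSet.ncard) :
    ∃ G' ≤ G, G'.edgeSet.ncard = N := by
  classical
  obtain ⟨s, hs, hc⟩ := Set.exists_subset_card_eq h
  refine ⟨SimpleGraph.fromEdgeSet s, ?_, ?_⟩
  · rw [← SimpleGraph.edgeSet_subset_edgeSet, SimpleGraph.edgeSet_fromEdgeSet]
    exact fun e he => hs he.1
  · rw [SimpleGraph.edgeSet_fromEdgeSet]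
    have : s \ {e | e.IsDiag} = s := by
      apply sdiff_eq_left.2
      rw [Set.disjoint_left]
      intro e he hd
      exact G.not_isDiag_of_mem_edgeSet (hs he) hd
    have h2 : s \ Sym2.diagSet = s := by
      rw [← this]
      ext e
      simp
    rw [h2]
    exact hc

lemma exists_graph {n N : ℕ} (h : N ≤ n.choose 2) :
    ∃ G : SimpleGraph (Fin n), G.edgeSet.ncard = N := by
  classical
  have h1 : (⊤ : SimpleGraph (Fin n)).edgeSet.ncard = n.choose 2 := by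
    rw [← SimpleGraph.coe_edgeFinset, Set.ncard_coe_finset, SimpleGraph.card_edgeFinset_top_eq_card_choose_two,
      Fintype.card_fin]
  obtain ⟨G, -, hG⟩ := exists_sub (⊤ : SimpleGraph (Fin n)) (N := N) (by omega)
  exact ⟨G, hG⟩

lemma cnt_change {k n : ℕ} (F : SimpleGraph (Fin k)) {G G' : SimpleGraph (Fin n)}
    (h : G' ≤ G) {p p₁ r : ℝ} (hp : 0 < p) (hp1 : 0 < p₁) (hr : p₁ / p ≤ r) :
    cnt p F G' ≤ cnt p₁ F G * r ^ F.edgeSet.ncard := by
  have h0 : 0 < p₁ / p := by positivity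
  have h1 : cnt p F G' ≤ cnt p₁ F G * (p₁ / p) ^ F.edgeSet.ncard := by
    unfold cnt
    rcases Nat.eq_zero_or_pos (n.descFactorial k) with h2 | h2
    · rw [h2]; simp
    · have h2' : (0 : ℝ) < (n.descFactorial k : ℝ) := by exact_mod_cast h2
      rw [div_pow, div_mul_div_comm, div_le_div_iff₀ (by positivity) (by positivity)]
      have h3 := labelled_mono F h
      have h4 : (0 : ℝ) ≤ p₁ ^ F.edgeSet.ncard * p ^ F.edgeSet.ncard * (n.descFactorial k : ℝ) *
        p ^ F.edgeSet.ncard := by positivity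
      calc _ = (G'.labelledCopyCount F : ℝ) * (n.descFactorial k * p₁ ^ F.edgeSet.ncard *
            p ^ F.edgeSet.ncard) := by ring
        _ ≤ (G.labelledCopyCount F : ℝ) * (n.descFactorial k * p₁ ^ F.edgeSet.ncard *
            p ^ F.edgeSet.ncard) := mul_le_mul_of_nonneg_right h3 (by positivity)
        _ = _ := by ring
  refine h1.trans (mul_le_mul_of_nonneg_left ?_ (cnt_nonneg hp1.le _ _))
  exact pow_le_pow_left₀ h0.le hr _

/-- The construction for a fixed number of vertices. -/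
theorem step {n N L : ℕ} (hn : 8 ≤ n) (hL : 1 ≤ L) {p x η : ℝ} (hp : 0 < p)
    (hN : p * (n.choose 2 : ℝ) = N) (hpL : p * 2 ^ (L ^ 7) ≤ 1 / 4)
    (hη : η = Real.exp (16 / (L : ℝ)) - 1 + 2 / (n * p ^ 4) + 4 / n)
    (hx : x = Real.sqrt (3 * η)) (hx2 : x ≤ 1 / 2) :
    ∃ G : SimpleGraph (Fin n), G.edgeSet.ncard = N ∧
      cnt p (SimpleGraph.cycleGraph 4) G ≤ (1 + 3 * η + 4 * x) * ((1 + 2 * x) * (1 + x)) ^ 4 ∧
      cnt p (⊤ : SimpleGraph (Fin 3)) G ≤ 81 * Real.exp (- (L : ℝ)) ∧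
      ∀ k ≤ n, ∀ F : SimpleGraph (Fin k), cnt p F G ≤
        3 * (2 ^ (k + 1) * Fintype.card (SimpleGraph (Fin k))) *
          Real.exp (2 ^ F.edgeSet.ncard) * 3 ^ F.edgeSet.ncard := by
  classical
  have hn' : (0 : ℝ) < n := by exact_mod_cast (by omega : 0 < n)
  have hn8 : (8 : ℝ) ≤ n := by exact_mod_cast hn
  have hL' : (1 : ℝ) ≤ L := by exact_mod_cast hL
  have hη0 : 0 < η := by
    rw [hη]
    have h1 : 1 ≤ Real.exp (16 / (L : ℝ)) := Real.one_le_exp (by positivity)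
    have h2 : 0 < 2 / ((n : ℝ) * p ^ 4) := by positivity
    have h3 : 0 < 4 / (n : ℝ) := by positivity
    linarith
  have hx0 : 0 < x := by rw [hx]; positivity
  have hxsq : x ^ 2 = 3 * η := by rw [hx]; exact Real.sq_sqrt (by positivity)
  have h2L : (0 : ℝ) < 2 ^ (L ^ 7) := by positivity
  -- the rational number
  obtain ⟨q, hq1, hq2⟩ := exists_rat_btwn (show p * 2 ^ (L ^ 7) * (1 + 2 * x) <
    p * 2 ^ (L ^ 7) * (1 + 2 * x) * (1 + x) by
      have : 0 < p * 2 ^ (L ^ 7) * (1 + 2 * x) := by positivity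
      nlinarith)
  have hq0 : (0 : ℝ) < q := lt_trans (by positivity) hq1
  have hq0' : (0 : ℚ) < q := by exact_mod_cast hq0
  have hqle : (q : ℝ) ≤ 1 := by
    refine hq2.le.trans ?_
    calc p * 2 ^ (L ^ 7) * (1 + 2 * x) * (1 + x) ≤ 1 / 4 * (1 + 2 * (1 / 2)) * (1 + 1 / 2) := by
          gcongr
      _ ≤ 1 := by norm_num
  set a := q.num.toNat with ha
  set M := q.den with hM
  have hnum : 0 < q.num := Rat.num_pos.2 hq0'
  have haq : (a : ℤ) = q.num := Int.toNat_of_nonneg hnum.le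
  have hM0 : 0 < M := q.den_pos
  have hqa : (q : ℝ) = (a : ℝ) / M := by
    have h1 : (q : ℝ) = (q.num : ℝ) / (q.den : ℝ) := by exact_mod_cast (Rat.num_div_den q).symm
    rw [h1]
    congr 1
    have : ((a : ℤ) : ℝ) = (q.num : ℝ) := by rw [haq]
    rw [← this]
    norm_num
  have ha0 : 0 < a := by
    have : (0 : ℤ) < (a : ℤ) := by rw [haq]; exact hnum
    exact_mod_cast this
  have haM : a ≤ M := by
    rw [hqa, div_le_one (by exact_mod_cast hM0)] at hqle
    exact_mod_cast hqle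
  set p₁ : ℝ := (a : ℝ) / M / 2 ^ (L ^ 7) with hp₁
  have hp1a : p * (1 + 2 * x) < p₁ := by
    rw [hp₁, ← hqa, lt_div_iff₀ h2L]
    calc _ = p * 2 ^ (L ^ 7) * (1 + 2 * x) := by ring
      _ < _ := hq1
  have hp1b : p₁ < p * (1 + 2 * x) * (1 + x) := by
    rw [hp₁, ← hqa, div_lt_iff₀ h2L]
    calc _ < _ := hq2
      _ = _ := by ring
  have hpp : p ≤ p₁ := by nlinarith
  have hp10 : 0 < p₁ := lt_of_lt_of_le hp hpp
  have hratio : p₁ / p ≤ (1 + 2 * x) * (1 + x) := by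
    rw [div_le_iff₀ hp]; linarith
  have hratio3 : p₁ / p ≤ 3 := hratio.trans (by nlinarith)
  have hKm : ((L ^ 7 : ℕ) : ℝ) / ((L ^ 2 : ℕ) : ℝ) ^ 4 = 1 / L := by
    push_cast
    field_simp
  have hKm3 : ((L ^ 7 : ℕ) : ℝ) / ((L ^ 2 : ℕ) : ℝ) ^ 3 = L := by
    push_cast
    field_simp
  set η₁ : ℝ := Real.exp (16 * (((L ^ 7 : ℕ) : ℝ) / ((L ^ 2 : ℕ) : ℝ) ^ 4)) - 1 +
    2 / (n * p₁ ^ 4) + 4 / n with hη₁
  obtain ⟨G, g1, g2, g3⟩ := core (n := n) (m := L ^ 7) (K := L ^ 2) (M := M) (a := a) (by omega)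
    (Nat.one_le_pow _ _ hL) ha0 haM p₁ η₁ hp₁ (by
      rw [hKm, div_le_one (by linarith)]; exact hL') hη₁
  rw [hKm3] at g2
  have hη1le : η₁ ≤ η := by
    rw [hη₁, hη, hKm, mul_one_div]
    have : 2 / ((n : ℝ) * p₁ ^ 4) ≤ 2 / (n * p ^ 4) := by
      apply div_le_div_of_nonneg_left (by norm_num) (by positivity)
      exact mul_le_mul_of_nonneg_left (pow_le_pow_left₀ hp.le hpp 4) hn'.le
    linarith
  have hdet := det_lower (by omega : 4 ≤ n) hp10 G
  set X := edg p₁ G with hX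
  have hX0 : 0 ≤ X := by rw [hX]; unfold edg; positivity
  have h4n : 1 / 2 ≤ 1 - 4 / (n : ℝ) := by
    have : 4 / (n : ℝ) ≤ 1 / 2 := by
      rw [div_le_div_iff₀ hn' (by norm_num)]; linarith
    linarith
  have h4n1 : 1 - 4 / (n : ℝ) ≤ 1 := by
    have : 0 ≤ 4 / (n : ℝ) := by positivity
    linarith
  have hquart : (X - 1) ^ 2 ≤ x ^ 2 := by
    have h1 : (1 - 4 / (n : ℝ)) * (X ^ 4 - 4 * X + 3) ≤ 3 * η := by linarith
    have h2 : 2 * (X - 1) ^ 2 ≤ X ^ 4 - 4 * X + 3 := by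
      have : X ^ 4 - 4 * X + 3 = (X - 1) ^ 2 * (X ^ 2 + 2 * X + 3) := by ring
      rw [this]
      nlinarith [mul_nonneg (sq_nonneg (X - 1)) (by positivity : 0 ≤ X ^ 2 + 2 * X + 1)]
    have h3 : 1 / 2 * (2 * (X - 1) ^ 2) ≤ (1 - 4 / (n : ℝ)) * (X ^ 4 - 4 * X + 3) :=
      mul_le_mul h4n h2 (by positivity) (by linarith)
    linarith
  have habs : |X - 1| ≤ x := abs_le_of_sq_le_sq hquart hx0.le
  have hXlo : 1 - x ≤ X := by have := (abs_le.1 habs).1; linarith
  have hXhi : X ≤ 1 + x := by have := (abs_le.1 habs).2; linarith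
  have hch0 : (0 : ℝ) < (n.choose 2 : ℝ) := by
    exact_mod_cast Nat.choose_pos (by omega : 2 ≤ n)
  have hedges : N ≤ G.edgeSet.ncard := by
    have h1 : (G.edgeSet.ncard : ℝ) = X * (n.choose 2 * p₁) := by
      rw [hX]; unfold edg; field_simp
    have h2 : (N : ℝ) ≤ (G.edgeSet.ncard : ℝ) := by
      rw [h1, ← hN]
      have h3 : 1 ≤ (1 - x) * (1 + 2 * x) := by nlinarith
      calc p * (n.choose 2 : ℝ) = 1 * (n.choose 2 * p) := by ring
        _ ≤ ((1 - x) * (1 + 2 * x)) * (n.choose 2 * p) :=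
            mul_le_mul_of_nonneg_right h3 (by positivity)
        _ = (1 - x) * (n.choose 2 * (p * (1 + 2 * x))) := by ring
        _ ≤ X * (n.choose 2 * p₁) := by
            apply mul_le_mul hXlo _ (by positivity) hX0
            exact mul_le_mul_of_nonneg_left hp1a.le hch0.le
    exact_mod_cast h2
  obtain ⟨G', hG', hG'N⟩ := exists_sub G hedges
  refine ⟨G', hG'N, ?_, ?_, ?_⟩
  · have h1 := cnt_change (SimpleGraph.cycleGraph 4) hG' hp hp10 hratio
    rw [four_edges] at h1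
    refine h1.trans (mul_le_mul_of_nonneg_right ?_ (by positivity))
    have h2 : (1 - 4 / (n : ℝ)) * (4 * X - 3) ≤ 1 + 4 * x := by
      calc (1 - 4 / (n : ℝ)) * (4 * X - 3) ≤ (1 - 4 / (n : ℝ)) * (1 + 4 * x) :=
            mul_le_mul_of_nonneg_left (by linarith) (by linarith)
        _ ≤ 1 * (1 + 4 * x) := mul_le_mul_of_nonneg_right h4n1 (by positivity)
        _ = _ := one_mul _
    have h3 : 0 < 2 / ((n : ℝ) * p₁ ^ 4) := by positivity
    linarith
  · have h1 := cnt_change (⊤ : SimpleGraph (Fin 3)) hG' hp hp10 hratio3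
    rw [three_edges] at h1
    calc _ ≤ _ := h1
      _ ≤ (3 * Real.exp (-(L : ℝ))) * 3 ^ 3 := mul_le_mul_of_nonneg_right g2 (by norm_num)
      _ = _ := by ring
  · intro k hk F
    have h1 := cnt_change F hG' hp hp10 hratio3
    exact h1.trans (mul_le_mul_of_nonneg_right (g3 k hk F) (by positivity))

end H37Z.Tri
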